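import Pool.Agent.Helper11.TF.GADefs

/-!
# Basic properties of `cc`, `CC`, `CN`
-/

namespace Pool.Agent.Helper9.TF

open Complex Finset Filter Topology
open Pool.Agent.Helper9.TB
open Pool.Agent.Helper48.QD (VS isOpen_VS convex_VS LS exp_LS LS_deriv LD LD_diff LD_step LD_refl
  LD_conj LD_asymp LD_real sf_LD LI_deriv LI_half)

/-- the strip `|Re u| < 1 / 2` -/
def HS : Set ℂ := {u : ℂ | |u.re| < 1 / 2}

lemma isOpen_HS : IsOpen HS := isOpen_lt (continuous_abs.comp Complex.continuous_re) continuous_const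

lemma convex_HS : Convex ℝ HS := by
  have : HS = {u : ℂ | -(1 / 2) < u.re} ∩ {u : ℂ | u.re < 1 / 2} := by
    ext u
    show |u.re| < 1 / 2 ↔ -(1 / 2) < u.re ∧ u.re < 1 / 2
    exact abs_lt
  rw [this]
  exact (convex_halfSpace_re_gt _).inter (convex_halfSpace_re_lt _)

lemma HS_VS {u : ℂ} (hu : u ∈ HS) : 1 / 2 + u ∈ VS := by
  have h := abs_lt.1 (show |u.re| < 1 / 2 from hu)
  constructor
  · simp; linarith [h.1]
  · simp; linarith [h.2]

lemma LS_half (u : ℂ) : LS (1 / 2 + u) = cc u := by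
  unfold LS cc
  rw [show (Real.pi : ℂ) * (1 / 2 + u) = Real.pi * u + Real.pi / 2 by ring, Complex.sin_add_pi_div_two]

lemma exp_cc {u : ℂ} (hu : u ∈ HS) : Complex.exp (cc u) = 2 * Complex.cos (Real.pi * u) := by
  rw [← LS_half, exp_LS (HS_VS hu),
    show (Real.pi : ℂ) * (1 / 2 + u) = Real.pi * u + Real.pi / 2 by ring, Complex.sin_add_pi_div_two]

lemma cc_neg (u : ℂ) : cc (-u) = cc u := by
  unfold cc
  rw [mul_neg, Complex.cos_neg]

theorem CN_hasDeriv {N : ℕ} (hN : 1 ≤ N) {u : ℂ} (hu : u ∈ HS) :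
    HasDerivAt (CN N) (deriv (CN N) u) u := by
  have hN' : (0 : ℝ) < N := by exact_mod_cast hN
  have h1 : DifferentiableAt ℂ (LD N) (1 / 2 + u) :=
    (LD_diff hN').differentiableAt (isOpen_VS.mem_nhds (HS_VS hu))
  have h2 : DifferentiableAt ℂ (fun u : ℂ => 1 / 2 + u) u := by fun_prop
  have : DifferentiableAt ℂ (CN N) u := h1.comp u h2
  exact this.hasDerivAt

theorem CN_diff {N : ℕ} (hN : 1 ≤ N) : DifferentiableOn ℂ (CN N) {u : ℂ | |u.re| < 1 / 2} :=
  fun _ hu => (CN_hasDeriv hN hu).differentiableAt.differentiableWithinAt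

theorem CN_neg (N : ℕ) (u : ℂ) : CN N (-u) = - CN N u := by
  unfold CN
  rw [← LD_refl]
  congr 1
  ring

theorem CN_conj (N : ℕ) (u : ℂ) : CN N ((starRingEnd ℂ) u) = (starRingEnd ℂ) (CN N u) := by
  unfold CN
  rw [← LD_conj]
  congr 1
  simp [Helper48.QD.conj_two]

theorem CN_step {N : ℕ} (hN : 1 ≤ N) {u : ℂ} (hu : |u.re| < 1 / 2 - 1 / (2 * N)) :
    CN N (u + 1 / (2 * N)) - CN N (u - 1 / (2 * N)) = cc u := by
  have hN' : (0 : ℝ) < N := by exact_mod_cast hN
  have hp : (0 : ℝ) < 1 / (2 * N) := by positivity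
  have h := abs_lt.1 hu
  have e : ((1 : ℂ) / (2 * N)).re = 1 / (2 * N) := by
    rw [show (1 : ℂ) / (2 * N) = ((1 / (2 * N) : ℝ) : ℂ) by push_cast; ring]
    exact Complex.ofReal_re _
  have h0 : u ∈ HS := by
    show |u.re| < 1 / 2
    linarith
  have h1 : u + 1 / (2 * N) ∈ HS := by
    show |(u + 1 / (2 * N)).re| < 1 / 2
    rw [Complex.add_re, e, abs_lt]
    constructor <;> linarith
  have h2 : u - 1 / (2 * N) ∈ HS := by
    show |(u - 1 / (2 * N)).re| < 1 / 2
    rw [Complex.sub_re, e, abs_lt]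
    constructor <;> linarith
  have h3 := LD_step hN' (HS_VS h0) (by
      have := HS_VS h1
      rwa [← add_assoc] at this) (by
      have := HS_VS h2
      rwa [← add_sub_assoc] at this)
  rw [LS_half] at h3
  unfold CN
  rw [← h3, ← add_assoc, ← add_sub_assoc]
  push_cast
  rfl

/-- the derivative of `cc` is `- π tan π u` -/
lemma cc_deriv {u : ℂ} (hu : u ∈ HS) :
    HasDerivAt cc (-(Real.pi * Complex.tan (Real.pi * u))) u := by
  have h1 := LS_deriv (HS_VS hu)
  have h2 : HasDerivAt (fun u : ℂ => 1 / 2 + u) 1 u := by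
    simpa using (hasDerivAt_id u).const_add (1 / 2 : ℂ)
  have h3 : HasDerivAt (fun u => LS (1 / 2 + u)) _ u := HasDerivAt.comp (h₂ := LS) u h1 h2
  have e : (fun u => LS (1 / 2 + u)) = cc := funext LS_half
  rw [e] at h3
  refine h3.congr_deriv ?_
  rw [mul_one, Complex.cot_eq_cos_div_sin,
    show (Real.pi : ℂ) * (1 / 2 + u) = Real.pi * u + Real.pi / 2 by ring, Complex.sin_add_pi_div_two,
    Complex.cos_add_pi_div_two, Complex.tan_eq_sin_div_cos]
  ring

lemma cc_contOn : ContinuousOn cc HS := fun _ hu => (cc_deriv hu).continuousAt.continuousWithinAt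

/-- `CC` is the primitive -/
lemma CC_eq {u : ℂ} (hu : u ∈ HS) : CC u = Helper48.QD.LI (1 / 2 + u) := by
  have hseg : ∀ s ∈ Set.uIcc (0 : ℝ) 1, (s : ℂ) * u ∈ HS := by
    intro s hs
    rw [Set.uIcc_of_le zero_le_one] at hs
    show |((s : ℂ) * u).re| < 1 / 2
    rw [Complex.re_ofReal_mul, abs_mul, abs_of_nonneg hs.1]
    have h1 : |u.re| < 1 / 2 := hu
    have h2 := abs_nonneg u.re
    nlinarith [hs.1, hs.2]
  have hd : ∀ s ∈ Set.uIcc (0 : ℝ) 1, HasDerivAt (fun s : ℝ => Helper48.QD.LI (1 / 2 + s * u))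
      (u * cc (s * u)) s := by
    intro s hs
    have h1 := LI_deriv (HS_VS (hseg s hs))
    have h2 : HasDerivAt (fun s : ℝ => 1 / 2 + (s : ℂ) * u) u s := by
      have h3 : HasDerivAt (fun s : ℝ => (s : ℂ)) 1 s := Complex.ofRealCLM.hasDerivAt
      simpa using (h3.mul_const u).const_add (1 / 2 : ℂ)
    have h4 := HasDerivAt.comp_of_eq (h₂ := Helper48.QD.LI) s h1 h2 rfl
    refine h4.congr_deriv ?_
    rw [LS_half]
    ring
  have hc : ContinuousOn (fun s : ℝ => u * cc (s * u)) (Set.uIcc 0 1) := by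
    apply ContinuousOn.mul continuousOn_const
    apply cc_contOn.comp (by fun_prop) hseg
  have h5 := intervalIntegral.integral_eq_sub_of_hasDerivAt hd hc.intervalIntegrable
  unfold CC
  rw [← intervalIntegral.integral_const_mul, h5]
  simp only [Complex.ofReal_one, one_mul, Complex.ofReal_zero, zero_mul, add_zero, LI_half, sub_zero]

lemma CC_deriv {u : ℂ} (hu : u ∈ HS) : HasDerivAt CC (cc u) u := by
  have h1 := LI_deriv (HS_VS hu)
  have h2 : HasDerivAt (fun u : ℂ => 1 / 2 + u) 1 u := by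
    simpa using (hasDerivAt_id u).const_add (1 / 2 : ℂ)
  have h3 : HasDerivAt (fun u => Helper48.QD.LI (1 / 2 + u)) _ u :=
    HasDerivAt.comp (h₂ := Helper48.QD.LI) u h1 h2
  rw [LS_half, mul_one] at h3
  apply h3.congr_of_eventuallyEq
  filter_upwards [isOpen_HS.mem_nhds hu] with v hv
  exact CC_eq hv

/-- comparison of `CN` and `N CC` -/
theorem CN_approx' {B : ℝ} : ∃ C : ℝ, 0 < C ∧ ∀ N : ℕ, 1 ≤ N → ∀ u : ℂ, |u.re| ≤ 2 / 5 → ‖u‖ ≤ B →
    ‖CN N u - N * CC u‖ ≤ C / N := by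
  obtain ⟨C, hC⟩ := LD_asymp (ε := 1 / 10) (B := B + 1 / 2) (by norm_num)
  refine ⟨|C| + 1, by positivity, fun N hN u hu hB => ?_⟩
  have hN' : (0 : ℝ) < N := by exact_mod_cast hN
  have h := abs_le.1 hu
  have h1 := hC N hN' (1 / 2 + u) (by simp; linarith [h.1]) (by simp; linarith [h.2]) (by
    refine (norm_add_le _ _).trans ?_
    have : ‖(1 / 2 : ℂ)‖ = 1 / 2 := by simp
    linarith)
  rw [CC_eq (by show |u.re| < 1 / 2; linarith)]
  unfold CN
  calc _ ≤ C / N := by exact_mod_cast h1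
    _ ≤ (|C| + 1) / N := by
      gcongr
      linarith [le_abs_self C]

end Pool.Agent.Helper9.TF
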