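import Pool.Agent.Helper11.TF.CN

/-!
# The interpolation `GA`: exactness, symmetries, derivatives
-/

namespace Pool.Agent.Helper9.TF

open Complex Finset Filter Topology
open Pool.Agent.Helper9.TB
open Pool.Agent.Helper48.QD (sf_LD LD)

lemma HS_iff {u : ℂ} : u ∈ HS ↔ |u.re| < 1 / 2 := Iff.rfl

lemma CN_ladd {N : ℕ} (hN : 1 ≤ N) (y : ℂ) : ∀ m : ℕ, |y.re| + m / N < 1 / 2 →
    ∏ k ∈ range m, 2 * Complex.cos (Real.pi * (y + xk N k)) =
      Complex.exp (CN N (y + m / N) - CN N y) := by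
  have hN' : (0 : ℝ) < N := by exact_mod_cast hN
  have hNc : (N : ℂ) ≠ 0 := by exact_mod_cast hN'.ne'
  intro m
  induction m with
  | zero => intro _; simp
  | succ m ih =>
    intro hm
    have hm1 : ((m + 1 : ℕ) : ℝ) / N = m / N + 1 / N := by push_cast; ring
    have hp : (0 : ℝ) < 1 / N := by positivity
    have hm0 : (0 : ℝ) ≤ m / N := by positivity
    rw [hm1] at hm
    have ih' := ih (by linarith)
    have hh : (1 : ℝ) / (2 * N) = (1 / N) / 2 := by field_simp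
    have hxk : xk N m = m / N + (1 / N) / 2 := by
      unfold xk
      field_simp
    have hre : (y + xk N m).re = y.re + (m / N + (1 / N) / 2) := by
      rw [Complex.add_re, Complex.ofReal_re, hxk]
    have h1 : |(y + xk N m).re| < 1 / 2 - 1 / (2 * N) := by
      rw [hre, hh]
      calc |y.re + (m / N + (1 / N) / 2)| ≤ |y.re| + |(m : ℝ) / N + (1 / N) / 2| := abs_add_le _ _
        _ = |y.re| + (m / N + (1 / N) / 2) := by
          rw [abs_of_nonneg (show (0 : ℝ) ≤ m / N + 1 / N / 2 by positivity)]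
        _ < 1 / 2 - 1 / N / 2 := by linarith
    have h2 := CN_step hN h1
    have h3 : y + xk N m ∈ HS := by
      rw [HS_iff]
      have : (0 : ℝ) < 1 / (2 * N) := by positivity
      linarith
    have h4 := exp_cc h3
    rw [prod_range_succ, ih', ← h4, ← h2, ← Complex.exp_add]
    congr 1
    have e1 : y + (xk N m : ℂ) + 1 / (2 * N) = y + ((m + 1 : ℕ) : ℂ) / N := by
      rw [hxk]
      push_cast
      field_simp
      ring
    have e2 : y + (xk N m : ℂ) - 1 / (2 * N) = y + (m : ℂ) / N := by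
      rw [hxk]
      push_cast
      field_simp
      ring
    rw [e1, e2]
    ring

theorem GA_exact : ∀ N : ℕ, 2 ≤ N → ∀ m : ℕ, m < N → ∀ y : ℂ, |y.re| + m / N < 1 / 2 →
    gm N m y = Complex.exp (N * GA N y (m / N)) := by
  intro N hN m hm y hy
  have hN1 : 1 ≤ N := by omega
  have hN' : (0 : ℝ) < N := by exact_mod_cast hN1
  have hNc : (N : ℂ) ≠ 0 := by exact_mod_cast hN'.ne'
  have h1 := CN_ladd hN1 y m hy
  have h2 := CN_ladd hN1 (-y) m (by rwa [Complex.neg_re, abs_neg])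
  have e1 : ∏ k ∈ range m, 4 * Complex.cos (Real.pi * (y + xk N k)) *
      Complex.cos (Real.pi * (y - xk N k)) = Complex.exp (CN N (m / N + y) + CN N (m / N - y)) := by
    have e2 : ∀ k ∈ range m, 4 * Complex.cos (Real.pi * (y + xk N k)) *
        Complex.cos (Real.pi * (y - xk N k)) = (2 * Complex.cos (Real.pi * (y + xk N k))) *
          (2 * Complex.cos (Real.pi * (-y + xk N k))) := by
      intro k _
      rw [show (Real.pi : ℂ) * (-y + xk N k) = -(Real.pi * (y - xk N k)) by ring, Complex.cos_neg]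
      ring
    rw [prod_congr rfl e2, prod_mul_distrib, h1, h2, ← Complex.exp_add]
    congr 1
    rw [CN_neg, add_comm y, show (-y : ℂ) + m / N = m / N - y by ring]
    ring
  have h3 := sf_LD hm
  have e3 : ((((m : ℝ) + 1 / 2) / N : ℝ) : ℂ) = 1 / 2 + (m / N - 1 / 2 + 1 / (2 * N)) := by
    push_cast
    field_simp
    ring
  have h4 : ((sf N m : ℝ) : ℂ) ^ 2 = N * Complex.exp (2 * CN N (m / N - 1 / 2 + 1 / (2 * N))) := by
    rw [h3, mul_pow, ← Complex.ofReal_pow, Real.sq_sqrt hN'.le, e3, ← Complex.exp_nat_mul]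
    unfold CN
    push_cast
    rfl
  unfold gm
  rw [e1, h4]
  unfold GA
  rw [mul_div_cancel₀ _ hNc]
  have h5 : (N : ℂ) = Complex.exp (Real.log N) := by
    rw [← Complex.ofReal_exp, Real.exp_log hN']
    simp
  conv_lhs => rw [h5]
  rw [← Complex.exp_add, ← Complex.exp_sub]
  simp only [← h5]
  congr 1
  ring

theorem GA_even (N : ℕ) (y t : ℂ) : GA N (-y) t = GA N y t := by
  unfold GA
  rw [sub_neg_eq_add, ← sub_eq_add_neg]
  ring

theorem GA_conj (N : ℕ) (y t : ℂ) :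
    GA N ((starRingEnd ℂ) y) ((starRingEnd ℂ) t) = (starRingEnd ℂ) (GA N y t) := by
  unfold GA
  simp only [map_div₀, map_sub, map_add, map_mul, ← CN_conj, Helper48.QD.conj_two, map_one,
    Complex.conj_natCast, Complex.conj_ofReal]

/-! ### the region -/

lemma re_le (z : ℂ) : |z.re| ≤ ‖z‖ := Complex.abs_re_le_norm z

lemma reg_add {y t : ℂ} (hy : ‖y‖ < 1 / 20) (ht : ‖t - 1 / 4‖ < 1 / 20) :
    |(t + y).re| < 2 / 5 := by
  have h1 := abs_lt.1 ((re_le y).trans_lt hy)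
  have h2 := abs_lt.1 ((re_le _).trans_lt ht)
  have h3 : (t - 1 / 4).re = t.re - 1 / 4 := by simp
  rw [h3] at h2
  rw [Complex.add_re, abs_lt]
  constructor <;> linarith [h1.1, h1.2, h2.1, h2.2]

lemma reg_sub {y t : ℂ} (hy : ‖y‖ < 1 / 20) (ht : ‖t - 1 / 4‖ < 1 / 20) :
    |(t - y).re| < 2 / 5 := by
  rw [sub_eq_add_neg]
  exact reg_add (by rwa [norm_neg]) ht

lemma reg_half {t : ℂ} (ht : ‖t - 1 / 4‖ < 1 / 20) : |(t - 1 / 2).re| < 2 / 5 := by
  have h2 := abs_lt.1 ((re_le _).trans_lt ht)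
  have h3 : (t - 1 / 4).re = t.re - 1 / 4 := by simp
  have h4 : (t - 1 / 2).re = t.re - 1 / 2 := by simp
  rw [h3] at h2
  rw [h4, abs_lt]
  constructor <;> linarith [h2.1, h2.2]

lemma small_N {N : ℕ} (hN : 20 ≤ N) : (0 : ℝ) < 1 / (2 * N) ∧ (1 : ℝ) / (2 * N) ≤ 1 / 40 := by
  have h : (20 : ℝ) ≤ N := by exact_mod_cast hN
  constructor
  · positivity
  · apply one_div_le_one_div_of_le (by norm_num)
    linarith

lemma half_N_re (N : ℕ) : ((1 : ℂ) / (2 * N)) = ((1 / (2 * N) : ℝ) : ℂ) := by push_cast; ring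

lemma reg_half' {N : ℕ} (hN : 20 ≤ N) {t : ℂ} (ht : ‖t - 1 / 4‖ < 1 / 20) :
    |(t - 1 / 2 + 1 / (2 * N)).re| < 2 / 5 := by
  have h0 := small_N hN
  have h2 := abs_lt.1 ((re_le _).trans_lt ht)
  have h3 : (t - 1 / 4).re = t.re - 1 / 4 := by simp
  have h4 : (t - 1 / 2 + 1 / (2 * N)).re = t.re - 1 / 2 + 1 / (2 * N) := by
    rw [half_N_re, Complex.add_re, Complex.ofReal_re]
    simp
  rw [h3] at h2
  rw [h4, abs_lt]
  constructor <;> linarith [h2.1, h2.2, h0.1, h0.2]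

lemma HS_of {u : ℂ} (h : |u.re| < 2 / 5) : u ∈ HS := by
  rw [HS_iff]; linarith

theorem GA_hasDeriv_y {N : ℕ} (hN : 20 ≤ N) {y t : ℂ} (hy : ‖y‖ < 1 / 20) (ht : ‖t - 1 / 4‖ < 1 / 20) :
    HasDerivAt (fun y => GA N y t) (GAy N y t) y := by
  have hN1 : 1 ≤ N := by omega
  have h1 := CN_hasDeriv hN1 (HS_of (reg_add hy ht))
  have h2 := CN_hasDeriv hN1 (HS_of (reg_sub hy ht))
  have h3 : HasDerivAt (fun y : ℂ => t + y) 1 y := by simpa using (hasDerivAt_id y).const_add t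
  have h4 : HasDerivAt (fun y : ℂ => t - y) (-1) y := by simpa using (hasDerivAt_id y).const_sub t
  have h5 : HasDerivAt (fun y => CN N (t + y)) _ y := HasDerivAt.comp (h₂ := CN N) y h1 h3
  have h6 : HasDerivAt (fun y => CN N (t - y)) _ y := HasDerivAt.comp (h₂ := CN N) y h2 h4
  refine (((h5.add h6).sub_const (2 * CN N (t - 1 / 2 + 1 / (2 * N)))).sub_const
    (Real.log N : ℂ)).div_const (N : ℂ) |>.congr_deriv ?_
  unfold GAy
  ring

theorem GA_hasDeriv_t {N : ℕ} (hN : 20 ≤ N) {y t : ℂ} (hy : ‖y‖ < 1 / 20) (ht : ‖t - 1 / 4‖ < 1 / 20) :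
    HasDerivAt (fun t => GA N y t) (GAt N y t) t := by
  have hN1 : 1 ≤ N := by omega
  have h1 := CN_hasDeriv hN1 (HS_of (reg_add hy ht))
  have h2 := CN_hasDeriv hN1 (HS_of (reg_sub hy ht))
  have h7 := CN_hasDeriv hN1 (HS_of (reg_half' hN ht))
  have h3 : HasDerivAt (fun t : ℂ => t + y) 1 t := by simpa using (hasDerivAt_id t).add_const y
  have h4 : HasDerivAt (fun t : ℂ => t - y) 1 t := by simpa using (hasDerivAt_id t).sub_const y
  have h8 : HasDerivAt (fun t : ℂ => t - 1 / 2 + 1 / (2 * N)) 1 t := by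
    simpa using ((hasDerivAt_id t).sub_const (1 / 2)).add_const (1 / (2 * N) : ℂ)
  have h5 : HasDerivAt (fun t => CN N (t + y)) _ t := HasDerivAt.comp (h₂ := CN N) t h1 h3
  have h6 : HasDerivAt (fun t => CN N (t - y)) _ t := HasDerivAt.comp (h₂ := CN N) t h2 h4
  have h9 : HasDerivAt (fun t => CN N (t - 1 / 2 + 1 / (2 * N))) _ t :=
    HasDerivAt.comp (h₂ := CN N) t h7 h8
  refine (((h5.add h6).sub (h9.const_mul 2)).sub_const (Real.log N : ℂ)).div_const (N : ℂ)
    |>.congr_deriv ?_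
  unfold GAt
  ring

theorem gam_hasDeriv_y {y t : ℂ} (hy : ‖y‖ < 1 / 20) (ht : ‖t - 1 / 4‖ < 1 / 20) :
    HasDerivAt (fun y => gam y t) (gamy y t) y := by
  have h1 := CC_deriv (HS_of (reg_add hy ht))
  have h2 := CC_deriv (HS_of (reg_sub hy ht))
  have h3 : HasDerivAt (fun y : ℂ => t + y) 1 y := by simpa using (hasDerivAt_id y).const_add t
  have h4 : HasDerivAt (fun y : ℂ => t - y) (-1) y := by simpa using (hasDerivAt_id y).const_sub t
  have h5 : HasDerivAt (fun y => CC (t + y)) _ y := HasDerivAt.comp (h₂ := CC) y h1 h3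
  have h6 : HasDerivAt (fun y => CC (t - y)) _ y := HasDerivAt.comp (h₂ := CC) y h2 h4
  refine ((h5.add h6).sub_const (2 * CC (t - 1 / 2))).congr_deriv ?_
  unfold gamy
  ring

theorem gam_hasDeriv_t {y t : ℂ} (hy : ‖y‖ < 1 / 20) (ht : ‖t - 1 / 4‖ < 1 / 20) :
    HasDerivAt (fun t => gam y t) (gamt y t) t := by
  have h1 := CC_deriv (HS_of (reg_add hy ht))
  have h2 := CC_deriv (HS_of (reg_sub hy ht))
  have h7 := CC_deriv (HS_of (reg_half ht))
  have h3 : HasDerivAt (fun t : ℂ => t + y) 1 t := by simpa using (hasDerivAt_id t).add_const y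
  have h4 : HasDerivAt (fun t : ℂ => t - y) 1 t := by simpa using (hasDerivAt_id t).sub_const y
  have h8 : HasDerivAt (fun t : ℂ => t - 1 / 2) 1 t := by
    simpa using (hasDerivAt_id t).sub_const (1 / 2)
  have h5 : HasDerivAt (fun t => CC (t + y)) _ t := HasDerivAt.comp (h₂ := CC) t h1 h3
  have h6 : HasDerivAt (fun t => CC (t - y)) _ t := HasDerivAt.comp (h₂ := CC) t h2 h4
  have h9 : HasDerivAt (fun t => CC (t - 1 / 2)) _ t := HasDerivAt.comp (h₂ := CC) t h7 h8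
  refine ((h5.add h6).sub (h9.const_mul 2)).congr_deriv ?_
  unfold gamt
  ring

theorem gamt_zero : gamt 0 (1 / 4) = 0 := by
  unfold gamt
  rw [add_zero, sub_zero, show (1 / 4 - 1 / 2 : ℂ) = -(1 / 4) by norm_num, cc_neg]
  ring

end Pool.Agent.Helper9.TF
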