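import Mathlib
import Pool.Agent.Helper48.QD.Sf
import Pool.Agent.Helper9.TF.Defs

/-!
# The antidifference of `log 2 cos π u` and the interpolation of the kernel

Only definitions.
-/

namespace Pool.Agent.Helper9.TF

open Complex

/-- the antidifference of `cc` with step `1 / N` -/
noncomputable def CN (N : ℕ) (u : ℂ) : ℂ := Helper48.QD.LD N (1 / 2 + u)

/-- the analytic interpolation of `(1 / N) log (gm N m y)` in `t = m / N` -/
noncomputable def GA (N : ℕ) (y t : ℂ) : ℂ :=
  (CN N (t + y) + CN N (t - y) - 2 * CN N (t - 1 / 2 + 1 / (2 * N)) - Real.log N) / N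

/-- the derivative of `GA` in `y` -/
noncomputable def GAy (N : ℕ) (y t : ℂ) : ℂ := (deriv (CN N) (t + y) - deriv (CN N) (t - y)) / N

/-- the derivative of `GA` in `t` -/
noncomputable def GAt (N : ℕ) (y t : ℂ) : ℂ :=
  (deriv (CN N) (t + y) + deriv (CN N) (t - y) - 2 * deriv (CN N) (t - 1 / 2 + 1 / (2 * N))) / N

end Pool.Agent.Helper9.TF
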