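import Pool.Agent.Helper11.TF.GA

/-!
# `GA → gam` with the first derivatives
-/

namespace Pool.Agent.Helper9.TF

open Complex Finset Filter Topology
open Pool.Agent.Helper9.TB

lemma dCN_diff {N : ℕ} (hN : 1 ≤ N) : DifferentiableOn ℂ (deriv (CN N)) HS :=
  (CN_diff hN).deriv isOpen_HS

lemma CN_cont {N : ℕ} (hN : 1 ≤ N) : ContinuousOn (CN N) HS := (CN_diff hN).continuousOn

theorem GA_cont {N : ℕ} (hN : 20 ≤ N) :
    ContinuousOn (fun p : ℂ × ℂ => GA N p.1 p.2)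
      (Metric.ball (0 : ℂ) (1 / 20) ×ˢ Metric.ball (1 / 4 : ℂ) (1 / 20)) ∧
    ContinuousOn (fun p : ℂ × ℂ => GAt N p.1 p.2)
      (Metric.ball (0 : ℂ) (1 / 20) ×ˢ Metric.ball (1 / 4 : ℂ) (1 / 20)) ∧
    ContinuousOn (fun p : ℂ × ℂ => GAy N p.1 p.2)
      (Metric.ball (0 : ℂ) (1 / 20) ×ˢ Metric.ball (1 / 4 : ℂ) (1 / 20)) := by
  have hN1 : 1 ≤ N := by omega
  have m1 : Set.MapsTo (fun p : ℂ × ℂ => p.2 + p.1)
      (Metric.ball (0 : ℂ) (1 / 20) ×ˢ Metric.ball (1 / 4 : ℂ) (1 / 20)) HS := by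
    intro p hp
    exact HS_of (reg_add (mem_ball_zero_iff.1 hp.1) (mem_ball_iff_norm.1 hp.2))
  have m2 : Set.MapsTo (fun p : ℂ × ℂ => p.2 - p.1)
      (Metric.ball (0 : ℂ) (1 / 20) ×ˢ Metric.ball (1 / 4 : ℂ) (1 / 20)) HS := by
    intro p hp
    exact HS_of (reg_sub (mem_ball_zero_iff.1 hp.1) (mem_ball_iff_norm.1 hp.2))
  have m3 : Set.MapsTo (fun p : ℂ × ℂ => p.2 - 1 / 2 + 1 / (2 * (N : ℂ)))
      (Metric.ball (0 : ℂ) (1 / 20) ×ˢ Metric.ball (1 / 4 : ℂ) (1 / 20)) HS := by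
    intro p hp
    exact HS_of (reg_half' hN (mem_ball_iff_norm.1 hp.2))
  have c1 := CN_cont hN1
  have c2 := (dCN_diff hN1).continuousOn
  have f1 : ContinuousOn (fun p : ℂ × ℂ => p.2 + p.1)
      (Metric.ball (0 : ℂ) (1 / 20) ×ˢ Metric.ball (1 / 4 : ℂ) (1 / 20)) := by fun_prop
  have f2 : ContinuousOn (fun p : ℂ × ℂ => p.2 - p.1)
      (Metric.ball (0 : ℂ) (1 / 20) ×ˢ Metric.ball (1 / 4 : ℂ) (1 / 20)) := by fun_prop
  have f3 : ContinuousOn (fun p : ℂ × ℂ => p.2 - 1 / 2 + 1 / (2 * (N : ℂ)))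
      (Metric.ball (0 : ℂ) (1 / 20) ×ˢ Metric.ball (1 / 4 : ℂ) (1 / 20)) := by fun_prop
  refine ⟨?_, ?_, ?_⟩
  · exact ((((c1.comp f1 m1).add (c1.comp f2 m2)).sub
      (continuousOn_const.mul (c1.comp f3 m3))).sub continuousOn_const).div_const _
  · exact (((c2.comp f1 m1).add (c2.comp f2 m2)).sub
      (continuousOn_const.mul (c2.comp f3 m3))).div_const _
  · exact ((c2.comp f1 m1).sub (c2.comp f2 m2)).div_const _

theorem GAt_diff_y {N : ℕ} (hN : 20 ≤ N) {t : ℂ} (ht : ‖t - 1 / 4‖ < 1 / 20) :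
    DifferentiableOn ℂ (fun y => GAt N y t) (Metric.ball (0 : ℂ) (1 / 20)) := by
  have hN1 : 1 ≤ N := by omega
  have c2 := dCN_diff hN1
  have m1 : Set.MapsTo (fun y : ℂ => t + y) (Metric.ball (0 : ℂ) (1 / 20)) HS :=
    fun y hy => HS_of (reg_add (mem_ball_zero_iff.1 hy) ht)
  have m2 : Set.MapsTo (fun y : ℂ => t - y) (Metric.ball (0 : ℂ) (1 / 20)) HS :=
    fun y hy => HS_of (reg_sub (mem_ball_zero_iff.1 hy) ht)
  have f1 : DifferentiableOn ℂ (fun y : ℂ => t + y) (Metric.ball (0 : ℂ) (1 / 20)) := by fun_prop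
  have f2 : DifferentiableOn ℂ (fun y : ℂ => t - y) (Metric.ball (0 : ℂ) (1 / 20)) := by fun_prop
  exact (((c2.comp f1 m1).add (c2.comp f2 m2)).sub_const _).div_const _

theorem GAy_diff_t {N : ℕ} (hN : 20 ≤ N) {y : ℂ} (hy : ‖y‖ < 1 / 20) :
    DifferentiableOn ℂ (fun t => GAy N y t) (Metric.ball (1 / 4 : ℂ) (1 / 20)) := by
  have hN1 : 1 ≤ N := by omega
  have c2 := dCN_diff hN1
  have m1 : Set.MapsTo (fun t : ℂ => t + y) (Metric.ball (1 / 4 : ℂ) (1 / 20)) HS :=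
    fun t ht => HS_of (reg_add hy (mem_ball_iff_norm.1 ht))
  have m2 : Set.MapsTo (fun t : ℂ => t - y) (Metric.ball (1 / 4 : ℂ) (1 / 20)) HS :=
    fun t ht => HS_of (reg_sub hy (mem_ball_iff_norm.1 ht))
  have f1 : DifferentiableOn ℂ (fun t : ℂ => t + y) (Metric.ball (1 / 4 : ℂ) (1 / 20)) := by fun_prop
  have f2 : DifferentiableOn ℂ (fun t : ℂ => t - y) (Metric.ball (1 / 4 : ℂ) (1 / 20)) := by fun_prop
  exact ((c2.comp f1 m1).sub (c2.comp f2 m2)).div_const _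

/-- a compact convex part of the strip -/
def KB : Set ℂ := {u : ℂ | |u.re| ≤ 2 / 5} ∩ Metric.closedBall 0 1

lemma KB_iff {u : ℂ} : u ∈ KB ↔ |u.re| ≤ 2 / 5 ∧ ‖u‖ ≤ 1 := by
  unfold KB
  rw [Set.mem_inter_iff, mem_closedBall_zero_iff]
  rfl

lemma KB_HS {u : ℂ} (hu : u ∈ KB) : u ∈ HS := by
  rw [HS_iff]
  linarith [(KB_iff.1 hu).1]

lemma KB_compact : IsCompact KB :=
  (isCompact_closedBall _ _).inter_left
    (isClosed_le (continuous_abs.comp Complex.continuous_re) continuous_const)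

lemma KB_convex : Convex ℝ KB := by
  have : {u : ℂ | |u.re| ≤ 2 / 5} = {u : ℂ | -(2 / 5) ≤ u.re} ∩ {u : ℂ | u.re ≤ 2 / 5} := by
    ext u
    show |u.re| ≤ 2 / 5 ↔ -(2 / 5) ≤ u.re ∧ u.re ≤ 2 / 5
    exact abs_le
  unfold KB
  rw [this]
  exact ((convex_halfSpace_re_ge _).inter (convex_halfSpace_re_le _)).inter
    (convex_closedBall _ _)

lemma cos_ne {u : ℂ} (hu : u ∈ HS) : Complex.cos (Real.pi * u) ≠ 0 := by
  intro h
  have := exp_cc hu
  rw [h, mul_zero] at this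
  exact Complex.exp_ne_zero _ this

lemma KB_bounds : ∃ L : ℝ, 0 < L ∧ ∀ u ∈ KB, ‖cc u‖ ≤ L ∧ ‖-(Real.pi * Complex.tan (Real.pi * u))‖ ≤ L := by
  have h1 : ContinuousOn cc KB := cc_contOn.mono fun _ h => KB_HS h
  have h2 : ContinuousOn (fun u : ℂ => -(Real.pi * Complex.tan (Real.pi * u))) KB := by
    apply ContinuousOn.neg
    apply ContinuousOn.mul continuousOn_const
    intro u hu
    have h3 : ContinuousAt Complex.tan (Real.pi * u) := by
      rw [Complex.continuousAt_tan]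
      exact cos_ne (KB_HS hu)
    exact (ContinuousAt.comp (f := fun u : ℂ => (Real.pi : ℂ) * u) h3 (by fun_prop)).continuousWithinAt
  obtain ⟨A, hA⟩ := KB_compact.exists_bound_of_continuousOn h1
  obtain ⟨B, hB⟩ := KB_compact.exists_bound_of_continuousOn h2
  refine ⟨max 1 (max A B), by positivity, fun u hu => ⟨?_, ?_⟩⟩
  · exact (hA u hu).trans ((le_max_left _ _).trans (le_max_right _ _))
  · exact (hB u hu).trans ((le_max_right _ _).trans (le_max_right _ _))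

lemma KB_lip : ∃ L : ℝ, 0 < L ∧ ∀ u ∈ KB, ∀ v ∈ KB, ‖cc u - cc v‖ ≤ L * ‖u - v‖ ∧
    ‖CC u - CC v‖ ≤ L * ‖u - v‖ := by
  obtain ⟨L, hL, h⟩ := KB_bounds
  refine ⟨L, hL, fun u hu v hv => ⟨?_, ?_⟩⟩
  · exact KB_convex.norm_image_sub_le_of_norm_hasDerivWithin_le
      (fun w hw => (cc_deriv (KB_HS hw)).hasDerivWithinAt) (fun w hw => (h w hw).2) hv hu
  · exact KB_convex.norm_image_sub_le_of_norm_hasDerivWithin_le
      (fun w hw => (CC_deriv (KB_HS hw)).hasDerivWithinAt) (fun w hw => (h w hw).1) hv hu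

/-- the derivative of `CN` -/
lemma dCN_approx : ∃ C : ℝ, 0 < C ∧ ∀ N : ℕ, 1 ≤ N → ∀ u : ℂ, |u.re| ≤ 7 / 20 → ‖u‖ ≤ 1 →
    ‖CN N u - N * CC u‖ ≤ C / N ∧ ‖deriv (CN N) u - N * cc u‖ ≤ C / N := by
  obtain ⟨C, hC, h⟩ := CN_approx' (B := 2)
  refine ⟨20 * C, by positivity, fun N hN u hu hB => ⟨?_, ?_⟩⟩
  · have hN' : (0 : ℝ) < N := by exact_mod_cast hN
    refine (h N hN u (by linarith) (by linarith)).trans ?_
    gcongr
    linarith
  have hN' : (0 : ℝ) < N := by exact_mod_cast hN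
  have hre : ∀ z ∈ Metric.closedBall u (1 / 20), |z.re| ≤ 2 / 5 := by
    intro z hz
    rw [Metric.mem_closedBall, dist_eq_norm] at hz
    have h1 := (re_le (z - u)).trans hz
    rw [Complex.sub_re] at h1
    have h2 := abs_le.1 h1
    have h3 := abs_le.1 hu
    rw [abs_le]
    constructor <;> linarith [h2.1, h2.2, h3.1, h3.2]
  have hHS : ∀ z ∈ Metric.closedBall u (1 / 20), z ∈ HS := by
    intro z hz
    rw [HS_iff]
    linarith [hre z hz]
  have hd : ∀ z ∈ HS, HasDerivAt (fun u => CN N u - N * CC u) (deriv (CN N) z - N * cc z) z :=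
    fun z hz => (CN_hasDeriv hN hz).sub ((CC_deriv hz).const_mul (N : ℂ))
  have hu' : u ∈ HS := hHS u (Metric.mem_closedBall_self (by norm_num))
  rw [← (hd u hu').deriv]
  have h4 : DiffContOnCl ℂ (fun u => CN N u - N * CC u) (Metric.ball u (1 / 20)) := by
    apply DifferentiableOn.diffContOnCl
    rw [closure_ball u (by norm_num)]
    exact fun z hz => (hd z (hHS z hz)).differentiableAt.differentiableWithinAt
  have h5 := Complex.norm_deriv_le_of_forall_mem_sphere_norm_le (C := C / N) (by norm_num) h4 (by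
    intro z hz
    have hz' := Metric.sphere_subset_closedBall hz
    apply h N hN z (hre z hz')
    rw [Metric.mem_closedBall, dist_eq_norm] at hz'
    have := norm_add_le (z - u) u
    rw [sub_add_cancel] at this
    linarith)
  refine h5.trans (le_of_eq ?_)
  field_simp

lemma nrm_half {N : ℕ} : ‖(1 : ℂ) / (2 * N)‖ = 1 / (2 * N) := by
  rw [half_N_re, Complex.norm_real, Real.norm_eq_abs, abs_of_nonneg (by positivity)]

lemma reg2 {y t : ℂ} (hy : ‖y‖ < 1 / 20) (ht : ‖t - 1 / 4‖ < 1 / 20) :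
    |(t + y).re| ≤ 7 / 20 ∧ ‖t + y‖ ≤ 1 := by
  have h : ‖t + y‖ ≤ 7 / 20 := by
    have h1 := norm_add_le (t - 1 / 4 + y) (1 / 4)
    have h2 := norm_add_le (t - 1 / 4) y
    have h3 : ‖(1 / 4 : ℂ)‖ = 1 / 4 := by simp
    rw [show t - 1 / 4 + y + 1 / 4 = t + y by ring, h3] at h1
    linarith
  exact ⟨(re_le _).trans h, by linarith⟩

lemma reg2' {y t : ℂ} (hy : ‖y‖ < 1 / 20) (ht : ‖t - 1 / 4‖ < 1 / 20) :
    |(t - y).re| ≤ 7 / 20 ∧ ‖t - y‖ ≤ 1 := by
  rw [sub_eq_add_neg]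
  exact reg2 (by rwa [norm_neg]) ht

lemma reg3 {s t : ℂ} (hs : ‖s‖ ≤ 1 / 40) (ht : ‖t - 1 / 4‖ < 1 / 20) :
    |(t - 1 / 2 + s).re| ≤ 7 / 20 ∧ ‖t - 1 / 2 + s‖ ≤ 1 := by
  have h : ‖t - 1 / 2 + s‖ ≤ 7 / 20 := by
    have h1 := norm_add_le (t - 1 / 4 + s) (-(1 / 4))
    have h2 := norm_add_le (t - 1 / 4) s
    have h3 : ‖(-(1 / 4) : ℂ)‖ = 1 / 4 := by simp
    rw [show t - 1 / 4 + s + -(1 / 4) = t - 1 / 2 + s by ring, h3] at h1
    linarith
  exact ⟨(re_le _).trans h, by linarith⟩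

/-- the estimates: `GA → gam` with the derivatives -/
theorem GA_lim : ∃ C : ℝ, 0 < C ∧ ∀ N : ℕ, 20 ≤ N → ∀ y t : ℂ, ‖y‖ < 1 / 20 → ‖t - 1 / 4‖ < 1 / 20 →
    ‖GA N y t - gam y t‖ ≤ C * (1 + Real.log N) / N ∧ ‖GAy N y t - gamy y t‖ ≤ C / N ∧
    ‖GAt N y t - gamt y t‖ ≤ C / N := by
  obtain ⟨L, hL, hlip⟩ := KB_lip
  obtain ⟨C, hC, happ⟩ := dCN_approx
  refine ⟨4 * C + L + 1, by positivity, fun N hN y t hy ht => ?_⟩
  have hN1 : 1 ≤ N := by omega
  have hN' : (1 : ℝ) ≤ N := by exact_mod_cast hN1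
  have hN0 : (0 : ℝ) < N := by linarith
  have hNc : (N : ℂ) ≠ 0 := by exact_mod_cast hN0.ne'
  have hlog : 0 ≤ Real.log N := Real.log_nonneg hN'
  have hs := small_N hN
  have r1 := reg2 hy ht
  have r2 := reg2' hy ht
  have r3 := reg3 (s := 1 / (2 * N)) (by rw [nrm_half]; exact hs.2) ht
  have r4 := reg3 (s := 0) (by simp) ht
  rw [add_zero] at r4
  have a1 := happ N hN1 _ r1.1 r1.2
  have a2 := happ N hN1 _ r2.1 r2.2
  have a3 := happ N hN1 _ r3.1 r3.2
  have l1 := hlip _ (KB_iff.2 ⟨by linarith [r3.1], r3.2⟩) _ (KB_iff.2 ⟨by linarith [r4.1], r4.2⟩)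
  rw [show t - 1 / 2 + 1 / (2 * (N : ℂ)) - (t - 1 / 2) = 1 / (2 * (N : ℂ)) by ring, nrm_half] at l1
  have hCN : C / N / N ≤ C / N := div_le_self (by positivity) hN'
  have hnn : ‖(N : ℂ)‖ = N := Complex.norm_natCast N
  have hL2 : L * (1 / (2 * (N : ℝ))) = L / (2 * N) := by ring
  rw [hL2] at l1
  have hL3 : 2 * (L / (2 * (N : ℝ))) = L / N := by field_simp
  refine ⟨?_, ?_, ?_⟩
  · have e : GA N y t - gam y t =
        ((CN N (t + y) - N * CC (t + y)) + (CN N (t - y) - N * CC (t - y)) -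
          2 * (CN N (t - 1 / 2 + 1 / (2 * N)) - N * CC (t - 1 / 2 + 1 / (2 * N)))) / N -
        2 * (CC (t - 1 / 2 + 1 / (2 * N)) - CC (t - 1 / 2)) - ((Real.log N / N : ℝ) : ℂ) := by
      unfold GA gam
      push_cast
      field_simp
      ring
    rw [e]
    have n1 : ‖((CN N (t + y) - N * CC (t + y)) + (CN N (t - y) - N * CC (t - y)) -
          2 * (CN N (t - 1 / 2 + 1 / (2 * N)) - N * CC (t - 1 / 2 + 1 / (2 * N)))) / N‖ ≤
        4 * C / N := by
      rw [norm_div, hnn]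
      have h1 := norm_sub_le ((CN N (t + y) - N * CC (t + y)) + (CN N (t - y) - N * CC (t - y)))
        (2 * (CN N (t - 1 / 2 + 1 / (2 * N)) - N * CC (t - 1 / 2 + 1 / (2 * N))))
      have h2 := norm_add_le (CN N (t + y) - N * CC (t + y)) (CN N (t - y) - N * CC (t - y))
      rw [norm_mul, RCLike.norm_ofNat] at h1
      calc _ ≤ (4 * (C / N)) / N := by
            gcongr
            linarith [a1.1, a2.1, a3.1]
        _ = 4 * (C / N / N) := by ring
        _ ≤ 4 * (C / N) := by linarith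
        _ = 4 * C / N := by ring
    have n2 : ‖2 * (CC (t - 1 / 2 + 1 / (2 * N)) - CC (t - 1 / 2))‖ ≤ L / N := by
      rw [norm_mul, RCLike.norm_ofNat]
      linarith [l1.2]
    have n3 : ‖((Real.log N / N : ℝ) : ℂ)‖ = Real.log N / N := by
      rw [Complex.norm_real, Real.norm_eq_abs, abs_of_nonneg (by positivity)]
    have n4 := norm_sub_le (((CN N (t + y) - N * CC (t + y)) + (CN N (t - y) - N * CC (t - y)) -
          2 * (CN N (t - 1 / 2 + 1 / (2 * N)) - N * CC (t - 1 / 2 + 1 / (2 * N)))) / N -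
        2 * (CC (t - 1 / 2 + 1 / (2 * N)) - CC (t - 1 / 2))) ((Real.log N / N : ℝ) : ℂ)
    have n5 := norm_sub_le (((CN N (t + y) - N * CC (t + y)) + (CN N (t - y) - N * CC (t - y)) -
          2 * (CN N (t - 1 / 2 + 1 / (2 * N)) - N * CC (t - 1 / 2 + 1 / (2 * N)))) / N)
        (2 * (CC (t - 1 / 2 + 1 / (2 * N)) - CC (t - 1 / 2)))
    have n6 : 4 * C / N + L / N + Real.log N / N ≤ (4 * C + L + 1) * (1 + Real.log N) / N := by
      rw [← add_div, ← add_div]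
      gcongr
      nlinarith [mul_nonneg hC.le hlog, mul_nonneg hL.le hlog]
    linarith
  · have e : GAy N y t - gamy y t = ((deriv (CN N) (t + y) - N * cc (t + y)) -
        (deriv (CN N) (t - y) - N * cc (t - y))) / N := by
      unfold GAy gamy
      field_simp
      ring
    rw [e, norm_div, hnn]
    have h1 := norm_sub_le (deriv (CN N) (t + y) - N * cc (t + y)) (deriv (CN N) (t - y) - N * cc (t - y))
    calc _ ≤ (2 * (C / N)) / N := by
          gcongr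
          linarith [a1.2, a2.2]
      _ = 2 * (C / N / N) := by ring
      _ ≤ 2 * (C / N) := by linarith
      _ = 2 * C / N := by ring
      _ ≤ (4 * C + L + 1) / N := by
        gcongr
        linarith
  · have e : GAt N y t - gamt y t =
        ((deriv (CN N) (t + y) - N * cc (t + y)) + (deriv (CN N) (t - y) - N * cc (t - y)) -
          2 * (deriv (CN N) (t - 1 / 2 + 1 / (2 * N)) - N * cc (t - 1 / 2 + 1 / (2 * N)))) / N -
        2 * (cc (t - 1 / 2 + 1 / (2 * N)) - cc (t - 1 / 2)) := by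
      unfold GAt gamt
      field_simp
      ring
    rw [e]
    have n1 : ‖((deriv (CN N) (t + y) - N * cc (t + y)) + (deriv (CN N) (t - y) - N * cc (t - y)) -
          2 * (deriv (CN N) (t - 1 / 2 + 1 / (2 * N)) - N * cc (t - 1 / 2 + 1 / (2 * N)))) / N‖ ≤
        4 * C / N := by
      rw [norm_div, hnn]
      have h1 := norm_sub_le ((deriv (CN N) (t + y) - N * cc (t + y)) +
        (deriv (CN N) (t - y) - N * cc (t - y)))
        (2 * (deriv (CN N) (t - 1 / 2 + 1 / (2 * N)) - N * cc (t - 1 / 2 + 1 / (2 * N))))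
      have h2 := norm_add_le (deriv (CN N) (t + y) - N * cc (t + y))
        (deriv (CN N) (t - y) - N * cc (t - y))
      rw [norm_mul, RCLike.norm_ofNat] at h1
      calc _ ≤ (4 * (C / N)) / N := by
            gcongr
            linarith [a1.2, a2.2, a3.2]
        _ = 4 * (C / N / N) := by ring
        _ ≤ 4 * (C / N) := by linarith
        _ = 4 * C / N := by ring
    have n2 : ‖2 * (cc (t - 1 / 2 + 1 / (2 * N)) - cc (t - 1 / 2))‖ ≤ L / N := by
      rw [norm_mul, RCLike.norm_ofNat]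
      linarith [l1.1]
    have n5 := norm_sub_le (((deriv (CN N) (t + y) - N * cc (t + y)) +
        (deriv (CN N) (t - y) - N * cc (t - y)) -
          2 * (deriv (CN N) (t - 1 / 2 + 1 / (2 * N)) - N * cc (t - 1 / 2 + 1 / (2 * N)))) / N)
        (2 * (cc (t - 1 / 2 + 1 / (2 * N)) - cc (t - 1 / 2)))
    have n6 : 4 * C / N + L / N ≤ (4 * C + L + 1) / N := by
      rw [← add_div]
      exact div_le_div_of_nonneg_right (by linarith) hN0.le
    linarith

end Pool.Agent.Helper9.TF
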