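import Pool.Agent.Helper11.TF.Lim

/-!
# Lipschitz constants of the derivatives of `gam`
-/

namespace Pool.Agent.Helper9.TF

open Complex Finset Filter Topology
open Pool.Agent.Helper9.TB

lemma cos_prod (a b : ℂ) : Complex.cos (2 * a) + Complex.cos (2 * b) =
      2 * (Complex.cos (a + b) * Complex.cos (a - b)) := by
  rw [Complex.cos_add, Complex.cos_sub, Complex.cos_two_mul, Complex.cos_two_mul]
  linear_combination (2 * Complex.sin b ^ 2) * Complex.sin_sq_add_cos_sq a +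
    (2 - 2 * Complex.cos a ^ 2) * Complex.sin_sq_add_cos_sq b

lemma tan_add_tan {a b : ℂ} (h1 : Complex.cos (a + b) ≠ 0) (h2 : Complex.cos (a - b) ≠ 0) :
    Complex.tan (a + b) + Complex.tan (a - b) =
      2 * Complex.sin (2 * a) / (Complex.cos (2 * a) + Complex.cos (2 * b)) := by
  have h3 : 2 * (Complex.cos (a + b) * Complex.cos (a - b)) ≠ 0 :=
    mul_ne_zero two_ne_zero (mul_ne_zero h1 h2)
  rw [cos_prod, Complex.tan_eq_sin_div_cos, Complex.tan_eq_sin_div_cos, div_add_div _ _ h1 h2,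
    div_eq_div_iff (mul_ne_zero h1 h2) h3]
  have e2 : Complex.sin (2 * a) = Complex.sin (a + b) * Complex.cos (a - b) +
      Complex.cos (a + b) * Complex.sin (a - b) := by
    rw [← Complex.sin_add]
    congr 1
    ring
  rw [e2]
  ring

lemma tan_sub_tan {a b : ℂ} (h1 : Complex.cos (a + b) ≠ 0) (h2 : Complex.cos (a - b) ≠ 0) :
    Complex.tan (a + b) - Complex.tan (a - b) =
      2 * Complex.sin (2 * b) / (Complex.cos (2 * a) + Complex.cos (2 * b)) := by
  have h3 : 2 * (Complex.cos (a + b) * Complex.cos (a - b)) ≠ 0 :=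
    mul_ne_zero two_ne_zero (mul_ne_zero h1 h2)
  rw [cos_prod, Complex.tan_eq_sin_div_cos, Complex.tan_eq_sin_div_cos, div_sub_div _ _ h1 h2,
    div_eq_div_iff (mul_ne_zero h1 h2) h3]
  have e2 : Complex.sin (2 * b) = Complex.sin (a + b) * Complex.cos (a - b) -
      Complex.cos (a + b) * Complex.sin (a - b) := by
    rw [← Complex.sin_sub]
    congr 1
    ring
  rw [e2]
  ring

lemma trig_small {z : ℂ} (hz : ‖z‖ ≤ 1) :
    ‖Complex.cos z - 1‖ ≤ ‖z‖ ^ 2 ∧ ‖Complex.sin z‖ ≤ ‖z‖ + ‖z‖ ^ 2 := by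
  have hI : ‖z * I‖ = ‖z‖ := by rw [norm_mul, Complex.norm_I, mul_one]
  have hI' : ‖-z * I‖ = ‖z‖ := by rw [norm_mul, Complex.norm_I, mul_one, norm_neg]
  have h1 := Complex.norm_exp_sub_one_sub_id_le (x := z * I) (by rw [hI]; exact hz)
  have h2 := Complex.norm_exp_sub_one_sub_id_le (x := -z * I) (by rw [hI']; exact hz)
  rw [hI] at h1
  rw [hI'] at h2
  constructor
  · have e : Complex.cos z - 1 = ((Complex.exp (z * I) - 1 - z * I) +
        (Complex.exp (-z * I) - 1 - -z * I)) / 2 := by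
      rw [Complex.cos]
      ring
    rw [e, norm_div, RCLike.norm_ofNat]
    have := norm_add_le (Complex.exp (z * I) - 1 - z * I) (Complex.exp (-z * I) - 1 - -z * I)
    linarith
  · have e : Complex.sin z = z + ((Complex.exp (-z * I) - 1 - -z * I) -
        (Complex.exp (z * I) - 1 - z * I)) * I / 2 := by
      rw [Complex.sin]
      linear_combination (-z) * Complex.I_sq
    rw [e]
    refine (norm_add_le _ _).trans ?_
    have h3 := norm_sub_le (Complex.exp (-z * I) - 1 - -z * I) (Complex.exp (z * I) - 1 - z * I)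
    rw [norm_div, norm_mul, Complex.norm_I, mul_one, RCLike.norm_ofNat]
    linarith

/-- data of the point -/
lemma pt_data (t : ℂ) : Complex.sin (2 * (Real.pi * t)) = Complex.cos (2 * Real.pi * (t - 1 / 4)) ∧
    Complex.cos (2 * (Real.pi * t)) = -Complex.sin (2 * Real.pi * (t - 1 / 4)) := by
  constructor
  · rw [← Complex.sin_add_pi_div_two]
    congr 1
    ring
  · rw [← Complex.cos_add_pi_div_two]
    congr 1
    ring

lemma den_ne {y t : ℂ} (hy : ‖y‖ < 1 / 20) (ht : ‖t - 1 / 4‖ < 1 / 20) :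
    Complex.cos (Real.pi * t + Real.pi * y) ≠ 0 ∧ Complex.cos (Real.pi * t - Real.pi * y) ≠ 0 := by
  rw [← mul_add, ← mul_sub]
  exact ⟨cos_ne (HS_of (reg_add hy ht)), cos_ne (HS_of (reg_sub hy ht))⟩

lemma gamy_deriv {y t : ℂ} (hy : ‖y‖ < 1 / 20) (ht : ‖t - 1 / 4‖ < 1 / 20) :
    HasDerivAt (fun y => gamy y t) (-(2 * Real.pi * Complex.cos (2 * Real.pi * (t - 1 / 4)) /
      (Complex.cos (2 * Real.pi * y) - Complex.sin (2 * Real.pi * (t - 1 / 4))))) y := by
  have h1 := cc_deriv (HS_of (reg_add hy ht))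
  have h2 := cc_deriv (HS_of (reg_sub hy ht))
  have h3 : HasDerivAt (fun y : ℂ => t + y) 1 y := by simpa using (hasDerivAt_id y).const_add t
  have h4 : HasDerivAt (fun y : ℂ => t - y) (-1) y := by simpa using (hasDerivAt_id y).const_sub t
  have h5 : HasDerivAt (fun y => cc (t + y)) _ y := HasDerivAt.comp (h₂ := cc) y h1 h3
  have h6 : HasDerivAt (fun y => cc (t - y)) _ y := HasDerivAt.comp (h₂ := cc) y h2 h4
  refine (h5.sub h6).congr_deriv ?_
  have h7 := tan_add_tan (den_ne hy ht).1 (den_ne hy ht).2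
  rw [(pt_data t).1, (pt_data t).2, ← mul_add, ← mul_sub] at h7
  have e : (2 : ℂ) * (Real.pi * y) = 2 * Real.pi * y := by ring
  rw [e] at h7
  have e2 : -(2 * Real.pi * Complex.cos (2 * Real.pi * (t - 1 / 4)) /
      (Complex.cos (2 * Real.pi * y) - Complex.sin (2 * Real.pi * (t - 1 / 4)))) =
      -Real.pi * (2 * Complex.cos (2 * Real.pi * (t - 1 / 4)) /
        (-Complex.sin (2 * Real.pi * (t - 1 / 4)) + Complex.cos (2 * Real.pi * y))) := by
    rw [show -Complex.sin (2 * Real.pi * (t - 1 / 4)) + Complex.cos (2 * Real.pi * y) =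
      Complex.cos (2 * Real.pi * y) - Complex.sin (2 * Real.pi * (t - 1 / 4)) by ring]
    ring
  rw [e2, ← h7]
  ring

lemma gamt_deriv_y {y t : ℂ} (hy : ‖y‖ < 1 / 20) (ht : ‖t - 1 / 4‖ < 1 / 20) :
    HasDerivAt (fun y => gamt y t) (-(2 * Real.pi * Complex.sin (2 * Real.pi * y) /
      (Complex.cos (2 * Real.pi * y) - Complex.sin (2 * Real.pi * (t - 1 / 4))))) y := by
  have h1 := cc_deriv (HS_of (reg_add hy ht))
  have h2 := cc_deriv (HS_of (reg_sub hy ht))
  have h3 : HasDerivAt (fun y : ℂ => t + y) 1 y := by simpa using (hasDerivAt_id y).const_add t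
  have h4 : HasDerivAt (fun y : ℂ => t - y) (-1) y := by simpa using (hasDerivAt_id y).const_sub t
  have h5 : HasDerivAt (fun y => cc (t + y)) _ y := HasDerivAt.comp (h₂ := cc) y h1 h3
  have h6 : HasDerivAt (fun y => cc (t - y)) _ y := HasDerivAt.comp (h₂ := cc) y h2 h4
  refine ((h5.add h6).sub_const (2 * cc (t - 1 / 2))).congr_deriv ?_
  have h7 := tan_sub_tan (den_ne hy ht).1 (den_ne hy ht).2
  rw [(pt_data t).2, ← mul_add, ← mul_sub] at h7
  have e : (2 : ℂ) * (Real.pi * y) = 2 * Real.pi * y := by ring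
  rw [e] at h7
  have e2 : -(2 * Real.pi * Complex.sin (2 * Real.pi * y) /
      (Complex.cos (2 * Real.pi * y) - Complex.sin (2 * Real.pi * (t - 1 / 4)))) =
      -Real.pi * (2 * Complex.sin (2 * Real.pi * y) /
        (-Complex.sin (2 * Real.pi * (t - 1 / 4)) + Complex.cos (2 * Real.pi * y))) := by
    rw [show -Complex.sin (2 * Real.pi * (t - 1 / 4)) + Complex.cos (2 * Real.pi * y) =
      Complex.cos (2 * Real.pi * y) - Complex.sin (2 * Real.pi * (t - 1 / 4)) by ring]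
    ring
  rw [e2, ← h7]
  ring

lemma gamt_deriv {y t : ℂ} (hy : ‖y‖ < 1 / 20) (ht : ‖t - 1 / 4‖ < 1 / 20) :
    HasDerivAt (fun t => gamt y t) (-(2 * Real.pi * Complex.cos (2 * Real.pi * (t - 1 / 4)) /
      (Complex.cos (2 * Real.pi * y) - Complex.sin (2 * Real.pi * (t - 1 / 4)))) -
      2 * Real.pi * Complex.cos (2 * Real.pi * (t - 1 / 4)) /
        (1 + Complex.sin (2 * Real.pi * (t - 1 / 4)))) t := by
  have h1 := cc_deriv (HS_of (reg_add hy ht))
  have h2 := cc_deriv (HS_of (reg_sub hy ht))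
  have h0 := cc_deriv (HS_of (reg_half ht))
  have h3 : HasDerivAt (fun t : ℂ => t + y) 1 t := by simpa using (hasDerivAt_id t).add_const y
  have h4 : HasDerivAt (fun t : ℂ => t - y) 1 t := by simpa using (hasDerivAt_id t).sub_const y
  have h8 : HasDerivAt (fun t : ℂ => t - 1 / 2) 1 t := by
    simpa using (hasDerivAt_id t).sub_const (1 / 2)
  have h5 : HasDerivAt (fun t => cc (t + y)) _ t := HasDerivAt.comp (h₂ := cc) t h1 h3
  have h6 : HasDerivAt (fun t => cc (t - y)) _ t := HasDerivAt.comp (h₂ := cc) t h2 h4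
  have h9 : HasDerivAt (fun t => cc (t - 1 / 2)) _ t := HasDerivAt.comp (h₂ := cc) t h0 h8
  refine ((h5.add h6).sub (h9.const_mul 2)).congr_deriv ?_
  have h7 := tan_add_tan (den_ne hy ht).1 (den_ne hy ht).2
  rw [(pt_data t).1, (pt_data t).2, ← mul_add, ← mul_sub] at h7
  have e : (2 : ℂ) * (Real.pi * y) = 2 * Real.pi * y := by ring
  rw [e] at h7
  have hc := cos_ne (HS_of (reg_half ht))
  have h10 := tan_add_tan (a := Real.pi * (t - 1 / 2)) (b := 0) (by rwa [add_zero])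
    (by rwa [sub_zero])
  rw [add_zero, sub_zero, mul_zero, Complex.cos_zero,
    show (2 : ℂ) * (Real.pi * (t - 1 / 2)) = 2 * (Real.pi * t) - Real.pi by ring,
    Complex.sin_sub_pi, Complex.cos_sub_pi, (pt_data t).1, (pt_data t).2, neg_neg] at h10
  have e2 : -(2 * Real.pi * Complex.cos (2 * Real.pi * (t - 1 / 4)) /
      (Complex.cos (2 * Real.pi * y) - Complex.sin (2 * Real.pi * (t - 1 / 4)))) =
      -Real.pi * (2 * Complex.cos (2 * Real.pi * (t - 1 / 4)) /
        (-Complex.sin (2 * Real.pi * (t - 1 / 4)) + Complex.cos (2 * Real.pi * y))) := by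
    rw [show -Complex.sin (2 * Real.pi * (t - 1 / 4)) + Complex.cos (2 * Real.pi * y) =
      Complex.cos (2 * Real.pi * y) - Complex.sin (2 * Real.pi * (t - 1 / 4)) by ring]
    ring
  have e3 : 2 * Real.pi * Complex.cos (2 * Real.pi * (t - 1 / 4)) /
        (1 + Complex.sin (2 * Real.pi * (t - 1 / 4))) =
      -Real.pi * (2 * -Complex.cos (2 * Real.pi * (t - 1 / 4)) /
        (Complex.sin (2 * Real.pi * (t - 1 / 4)) + 1)) := by
    rw [add_comm (1 : ℂ)]
    ring
  rw [e2, e3, ← h7, ← h10]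
  ring

/-- small quantities -/
lemma small_data {r : ℝ} (hr : r ≤ 1 / 20) {y : ℂ} (hy : ‖y‖ ≤ r) :
    ‖Complex.cos (2 * Real.pi * y) - 1‖ ≤ 40 * ‖y‖ ^ 2 ∧
      ‖Complex.sin (2 * Real.pi * y)‖ ≤ (2 * Real.pi + 40 * r) * ‖y‖ := by
  have hn : ‖(2 * Real.pi * y : ℂ)‖ = 2 * Real.pi * ‖y‖ := by
    rw [norm_mul, norm_mul, RCLike.norm_ofNat, Complex.norm_real, Real.norm_eq_abs,
      abs_of_pos Real.pi_pos]
  have hp := Real.pi_lt_d2
  have hp0 := Real.pi_pos
  have h0 := norm_nonneg y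
  have h1 : 2 * Real.pi * ‖y‖ ≤ 1 := by nlinarith
  have h2 := trig_small (z := 2 * Real.pi * y) (by rw [hn]; exact h1)
  rw [hn] at h2
  have h4 : Real.pi ^ 2 < 10 := by nlinarith
  have h3 : (2 * Real.pi * ‖y‖) ^ 2 ≤ 40 * ‖y‖ ^ 2 := by
    have : 4 * Real.pi ^ 2 ≤ 40 := by linarith
    calc (2 * Real.pi * ‖y‖) ^ 2 = 4 * Real.pi ^ 2 * ‖y‖ ^ 2 := by ring
      _ ≤ 40 * ‖y‖ ^ 2 := by gcongr
  refine ⟨h2.1.trans h3, h2.2.trans ?_⟩
  have h5 : 40 * ‖y‖ ^ 2 ≤ 40 * r * ‖y‖ := by nlinarith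
  linarith

/-- lower bound of the denominator -/
lemma den_low {y t : ℂ} (hy : ‖y‖ ≤ 1 / 20) (ht : ‖t - 1 / 4‖ ≤ 1 / 20) :
    2 / 5 ≤ ‖Complex.cos (2 * Real.pi * y) - Complex.sin (2 * Real.pi * (t - 1 / 4))‖ := by
  have h1 := (small_data le_rfl hy).1
  have h2 := (small_data le_rfl ht).2
  have hp := Real.pi_lt_d2
  have h3 : 1 ≤ ‖Complex.cos (2 * Real.pi * y) - Complex.sin (2 * Real.pi * (t - 1 / 4))‖ +
      ‖Complex.cos (2 * Real.pi * y) - 1‖ + ‖Complex.sin (2 * Real.pi * (t - 1 / 4))‖ := by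
    have e : (1 : ℂ) = (Complex.cos (2 * Real.pi * y) - Complex.sin (2 * Real.pi * (t - 1 / 4))) -
      (Complex.cos (2 * Real.pi * y) - 1) + Complex.sin (2 * Real.pi * (t - 1 / 4)) := by ring
    have h4 : (1 : ℝ) = ‖(1 : ℂ)‖ := by simp
    rw [h4]
    conv_lhs => rw [e]
    refine (norm_add_le _ _).trans ?_
    gcongr
    exact norm_sub_le _ _
  have h5 := norm_nonneg y
  have h6 := norm_nonneg (t - 1 / 4)
  have h7 : 40 * ‖y‖ ^ 2 ≤ 1 / 10 := by nlinarith
  have h8 : (2 * Real.pi + 40 * (1 / 20)) * ‖t - 1 / 4‖ ≤ 83 / 10 * (1 / 20) := by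
    gcongr
    linarith
  linarith

/-- the second derivatives: near `y = 0`, `t = 1 / 4` they are `- 2 π`, `- 4 π` -/
theorem gamy_lip {y z t : ℂ} (hy : ‖y‖ < 1 / 200) (hz : ‖z‖ < 1 / 200)
    (ht : ‖t - 1 / 4‖ < 1 / 200) :
    ‖gamy y t - gamy z t + 2 * Real.pi * (y - z)‖ ≤ 1 / 4 * ‖y - z‖ := by
  have hp := Real.pi_lt_d2
  have hp0 := Real.pi_pos
  have hd : ∀ w ∈ Metric.ball (0 : ℂ) (1 / 200), HasDerivWithinAt
      (fun y => gamy y t + 2 * Real.pi * y)
      (-(2 * Real.pi * Complex.cos (2 * Real.pi * (t - 1 / 4)) /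
      (Complex.cos (2 * Real.pi * w) - Complex.sin (2 * Real.pi * (t - 1 / 4)))) + 2 * Real.pi)
      (Metric.ball (0 : ℂ) (1 / 200)) w := by
    intro w hw
    rw [mem_ball_zero_iff] at hw
    have h1 := gamy_deriv (y := w) (t := t) (by linarith) (by linarith)
    have h2 : HasDerivAt (fun y : ℂ => 2 * Real.pi * y) (2 * Real.pi) w := by
      simpa using (hasDerivAt_id w).const_mul (2 * Real.pi : ℂ)
    exact (h1.add h2).hasDerivWithinAt
  have hb : ∀ w ∈ Metric.ball (0 : ℂ) (1 / 200),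
      ‖-(2 * Real.pi * Complex.cos (2 * Real.pi * (t - 1 / 4)) /
      (Complex.cos (2 * Real.pi * w) - Complex.sin (2 * Real.pi * (t - 1 / 4)))) + 2 * Real.pi‖ ≤
        1 / 4 := by
    intro w hw
    rw [mem_ball_zero_iff] at hw
    have a1 := (small_data (r := 1 / 200) (by norm_num) hw.le).1
    have a2 := small_data (r := 1 / 200) (by norm_num) ht.le
    set Y := Complex.cos (2 * Real.pi * w)
    set S := Complex.cos (2 * Real.pi * (t - 1 / 4))
    set s := Complex.sin (2 * Real.pi * (t - 1 / 4))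
    have n0 := norm_nonneg w
    have n1 := norm_nonneg (t - 1 / 4)
    have b1 : ‖Y - 1‖ ≤ 1 / 1000 := a1.trans (by nlinarith)
    have b2 : ‖S - 1‖ ≤ 1 / 1000 := a2.1.trans (by nlinarith)
    have b3 : ‖s‖ ≤ 33 / 1000 := a2.2.trans (by nlinarith)
    have hden : 966 / 1000 ≤ ‖Y - s‖ := by
      have e : (1 : ℂ) = (Y - s) - (Y - 1) + s := by ring
      have h4 : (1 : ℝ) = ‖(Y - s) - (Y - 1) + s‖ := by rw [← e]; simp
      have h5 := norm_add_le ((Y - s) - (Y - 1)) s
      have h6 := norm_sub_le (Y - s) (Y - 1)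
      linarith
    have hne : Y - s ≠ 0 := by
      intro h
      rw [h, norm_zero] at hden
      linarith
    have e : -(2 * Real.pi * S / (Y - s)) + 2 * Real.pi =
        2 * Real.pi * (((Y - 1) - (S - 1) - s) / (Y - s)) := by
      field_simp
      ring
    rw [e, norm_mul, norm_mul, RCLike.norm_ofNat, Complex.norm_real, Real.norm_eq_abs,
      abs_of_pos hp0, norm_div]
    have hnum : ‖(Y - 1) - (S - 1) - s‖ ≤ 35 / 1000 := by
      have h1 := norm_sub_le ((Y - 1) - (S - 1)) s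
      have h2 := norm_sub_le (Y - 1) (S - 1)
      linarith
    calc 2 * Real.pi * (‖(Y - 1) - (S - 1) - s‖ / ‖Y - s‖) ≤
        2 * 3.15 * ((35 / 1000) / (966 / 1000)) := by gcongr
      _ ≤ 1 / 4 := by norm_num
  have h := (convex_ball (0 : ℂ) (1 / 200)).norm_image_sub_le_of_norm_hasDerivWithin_le hd hb
    (mem_ball_zero_iff.2 hz) (mem_ball_zero_iff.2 hy)
  refine le_trans (le_of_eq ?_) h
  congr 1
  ring

theorem gamt_lip {y t s : ℂ} (hy : ‖y‖ < 1 / 200) (ht : ‖t - 1 / 4‖ < 1 / 200)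
    (hs : ‖s - 1 / 4‖ < 1 / 200) :
    ‖gamt y t - gamt y s + 4 * Real.pi * (t - s)‖ ≤ 1 / 4 * ‖t - s‖ := by
  have hp := Real.pi_lt_d2
  have hp0 := Real.pi_pos
  have hd : ∀ w ∈ Metric.ball (1 / 4 : ℂ) (1 / 200), HasDerivWithinAt
      (fun t => gamt y t + 4 * Real.pi * t)
      (-(2 * Real.pi * Complex.cos (2 * Real.pi * (w - 1 / 4)) /
      (Complex.cos (2 * Real.pi * y) - Complex.sin (2 * Real.pi * (w - 1 / 4)))) -
      2 * Real.pi * Complex.cos (2 * Real.pi * (w - 1 / 4)) /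
        (1 + Complex.sin (2 * Real.pi * (w - 1 / 4))) + 4 * Real.pi)
      (Metric.ball (1 / 4 : ℂ) (1 / 200)) w := by
    intro w hw
    rw [mem_ball_iff_norm] at hw
    have h1 := gamt_deriv (y := y) (t := w) (by linarith) (by linarith)
    have h2 : HasDerivAt (fun t : ℂ => 4 * Real.pi * t) (4 * Real.pi) w := by
      simpa using (hasDerivAt_id w).const_mul (4 * Real.pi : ℂ)
    exact (h1.add h2).hasDerivWithinAt
  have hb : ∀ w ∈ Metric.ball (1 / 4 : ℂ) (1 / 200),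
      ‖-(2 * Real.pi * Complex.cos (2 * Real.pi * (w - 1 / 4)) /
      (Complex.cos (2 * Real.pi * y) - Complex.sin (2 * Real.pi * (w - 1 / 4)))) -
      2 * Real.pi * Complex.cos (2 * Real.pi * (w - 1 / 4)) /
        (1 + Complex.sin (2 * Real.pi * (w - 1 / 4))) + 4 * Real.pi‖ ≤ 1 / 4 := by
    intro w hw
    rw [mem_ball_iff_norm] at hw
    have a1 := (small_data (r := 1 / 200) (by norm_num) hy.le).1
    have a2 := small_data (r := 1 / 200) (by norm_num) hw.le
    set Y := Complex.cos (2 * Real.pi * y)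
    set S := Complex.cos (2 * Real.pi * (w - 1 / 4))
    set s := Complex.sin (2 * Real.pi * (w - 1 / 4))
    have n0 := norm_nonneg y
    have n1 := norm_nonneg (w - 1 / 4)
    have b1 : ‖Y - 1‖ ≤ 1 / 1000 := a1.trans (by nlinarith)
    have b2 : ‖S - 1‖ ≤ 1 / 1000 := a2.1.trans (by nlinarith)
    have b3 : ‖s‖ ≤ 33 / 1000 := a2.2.trans (by nlinarith)
    have hden : 966 / 1000 ≤ ‖Y - s‖ := by
      have e : (1 : ℂ) = (Y - s) - (Y - 1) + s := by ring
      have h4 : (1 : ℝ) = ‖(Y - s) - (Y - 1) + s‖ := by rw [← e]; simp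
      have h5 := norm_add_le ((Y - s) - (Y - 1)) s
      have h6 := norm_sub_le (Y - s) (Y - 1)
      linarith
    have hne : Y - s ≠ 0 := by
      intro h
      rw [h, norm_zero] at hden
      linarith
    have hden2 : 966 / 1000 ≤ ‖1 + s‖ := by
      have e : (1 : ℂ) = (1 + s) - s := by ring
      have h4 : (1 : ℝ) = ‖(1 + s) - s‖ := by rw [← e]; simp
      have h5 := norm_sub_le (1 + s) s
      linarith
    have hne2 : 1 + s ≠ 0 := by
      intro h
      rw [h, norm_zero] at hden2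
      linarith
    have e : -(2 * Real.pi * S / (Y - s)) - 2 * Real.pi * S / (1 + s) + 4 * Real.pi =
        2 * Real.pi * (((Y - 1) + 2 * ((Y - 1) * s) - 2 * (s * s) - 2 * (S - 1) -
          (Y - 1) * (S - 1)) / ((Y - s) * (1 + s))) := by
      field_simp
      ring
    rw [e, norm_mul, norm_mul, RCLike.norm_ofNat, Complex.norm_real, Real.norm_eq_abs,
      abs_of_pos hp0, norm_div, norm_mul (Y - s)]
    have hnum : ‖(Y - 1) + 2 * ((Y - 1) * s) - 2 * (s * s) - 2 * (S - 1) -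
          (Y - 1) * (S - 1)‖ ≤ 1 / 100 := by
      have h1 := norm_sub_le ((Y - 1) + 2 * ((Y - 1) * s) - 2 * (s * s) - 2 * (S - 1))
        ((Y - 1) * (S - 1))
      have h2 := norm_sub_le ((Y - 1) + 2 * ((Y - 1) * s) - 2 * (s * s)) (2 * (S - 1))
      have h3 := norm_sub_le ((Y - 1) + 2 * ((Y - 1) * s)) (2 * (s * s))
      have h4 := norm_add_le (Y - 1) (2 * ((Y - 1) * s))
      have h5 : ‖2 * ((Y - 1) * s)‖ ≤ 2 * (1 / 1000 * (33 / 1000)) := by
        rw [norm_mul, norm_mul, RCLike.norm_ofNat]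
        gcongr
      have h6 : ‖2 * (s * s)‖ ≤ 2 * (33 / 1000 * (33 / 1000)) := by
        rw [norm_mul, norm_mul, RCLike.norm_ofNat]
        gcongr
      have h7 : ‖2 * (S - 1)‖ ≤ 2 * (1 / 1000) := by
        rw [norm_mul, RCLike.norm_ofNat]
        gcongr
      have h8 : ‖(Y - 1) * (S - 1)‖ ≤ 1 / 1000 * (1 / 1000) := by
        rw [norm_mul]
        gcongr
      linarith
    calc 2 * Real.pi * (‖(Y - 1) + 2 * ((Y - 1) * s) - 2 * (s * s) - 2 * (S - 1) -
          (Y - 1) * (S - 1)‖ / (‖Y - s‖ * ‖1 + s‖)) ≤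
        2 * 3.15 * ((1 / 100) / ((966 / 1000) * (966 / 1000))) := by gcongr
      _ ≤ 1 / 4 := by norm_num
  have h := (convex_ball (1 / 4 : ℂ) (1 / 200)).norm_image_sub_le_of_norm_hasDerivWithin_le hd hb
    (mem_ball_iff_norm.2 hs) (mem_ball_iff_norm.2 ht)
  refine le_trans (le_of_eq ?_) h
  congr 1
  ring

lemma gamy_zero (t : ℂ) : gamy 0 t = 0 := by
  unfold gamy
  rw [add_zero, sub_zero, sub_self]

/-- cubic error terms -/
theorem gamy_cubic : ∃ C : ℝ, 0 < C ∧ ∀ y t : ℂ, ‖y‖ < 1 / 20 → ‖t - 1 / 4‖ < 1 / 20 →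
    ‖gamy y t + 2 * Real.pi * y‖ ≤ C * ‖y‖ * (‖y‖ ^ 2 + ‖t - 1 / 4‖) ∧
    ‖gamt y t - gamt 0 t‖ ≤ C * ‖y‖ ^ 2 := by
  refine ⟨1000, by norm_num, fun y t hy ht => ?_⟩
  have hp := Real.pi_lt_d2
  have hp0 := Real.pi_pos
  have hball : ∀ w ∈ Metric.closedBall (0 : ℂ) ‖y‖, ‖w‖ ≤ ‖y‖ := fun w hw =>
    mem_closedBall_zero_iff.1 hw
  have n1 := norm_nonneg (t - 1 / 4)
  have n2 := norm_nonneg y
  constructor
  · have hd : ∀ w ∈ Metric.closedBall (0 : ℂ) ‖y‖, HasDerivWithinAt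
        (fun y => gamy y t + 2 * Real.pi * y)
        (-(2 * Real.pi * Complex.cos (2 * Real.pi * (t - 1 / 4)) /
        (Complex.cos (2 * Real.pi * w) - Complex.sin (2 * Real.pi * (t - 1 / 4)))) + 2 * Real.pi)
        (Metric.closedBall (0 : ℂ) ‖y‖) w := by
      intro w hw
      have hw' := hball w hw
      have h1 := gamy_deriv (y := w) (t := t) (by linarith) (by linarith)
      have h2 : HasDerivAt (fun y : ℂ => 2 * Real.pi * y) (2 * Real.pi) w := by
        simpa using (hasDerivAt_id w).const_mul (2 * Real.pi : ℂ)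
      exact (h1.add h2).hasDerivWithinAt
    have hb : ∀ w ∈ Metric.closedBall (0 : ℂ) ‖y‖,
        ‖-(2 * Real.pi * Complex.cos (2 * Real.pi * (t - 1 / 4)) /
        (Complex.cos (2 * Real.pi * w) - Complex.sin (2 * Real.pi * (t - 1 / 4)))) + 2 * Real.pi‖ ≤
          1000 * (‖y‖ ^ 2 + ‖t - 1 / 4‖) := by
      intro w hw
      have hw' := hball w hw
      have n0 := norm_nonneg w
      have a1 := (small_data (r := 1 / 20) le_rfl (by linarith : ‖w‖ ≤ 1 / 20)).1
      have a2 := small_data (r := 1 / 20) le_rfl ht.le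
      have hden := den_low (y := w) (t := t) (by linarith) ht.le
      set Y := Complex.cos (2 * Real.pi * w)
      set S := Complex.cos (2 * Real.pi * (t - 1 / 4))
      set s := Complex.sin (2 * Real.pi * (t - 1 / 4))
      have b1 : ‖Y - 1‖ ≤ 40 * ‖y‖ ^ 2 := a1.trans (by gcongr)
      have b2 : ‖S - 1‖ ≤ 2 * ‖t - 1 / 4‖ := a2.1.trans (by nlinarith)
      have b3 : ‖s‖ ≤ 9 * ‖t - 1 / 4‖ := a2.2.trans (by
        gcongr
        linarith)
      have hne : Y - s ≠ 0 := by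
        intro h
        rw [h, norm_zero] at hden
        linarith
      have e : -(2 * Real.pi * S / (Y - s)) + 2 * Real.pi =
          2 * Real.pi * (((Y - 1) - (S - 1) - s) / (Y - s)) := by
        field_simp
        ring
      rw [e, norm_mul, norm_mul, RCLike.norm_ofNat, Complex.norm_real, Real.norm_eq_abs,
        abs_of_pos hp0, norm_div]
      have hnum : ‖(Y - 1) - (S - 1) - s‖ ≤ 40 * (‖y‖ ^ 2 + ‖t - 1 / 4‖) := by
        have h1 := norm_sub_le ((Y - 1) - (S - 1)) s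
        have h2 := norm_sub_le (Y - 1) (S - 1)
        linarith
      calc 2 * Real.pi * (‖(Y - 1) - (S - 1) - s‖ / ‖Y - s‖) ≤
          2 * 3.15 * ((40 * (‖y‖ ^ 2 + ‖t - 1 / 4‖)) / (2 / 5)) := by gcongr
        _ = 630 * (‖y‖ ^ 2 + ‖t - 1 / 4‖) := by ring
        _ ≤ 1000 * (‖y‖ ^ 2 + ‖t - 1 / 4‖) := by
          gcongr
          norm_num
    have h := (convex_closedBall (0 : ℂ) ‖y‖).norm_image_sub_le_of_norm_hasDerivWithin_le hd hb
      (Metric.mem_closedBall_self n2) (mem_closedBall_zero_iff.2 le_rfl)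
    simp only [mul_zero, gamy_zero, add_zero, sub_zero] at h
    calc _ ≤ _ := h
      _ = 1000 * ‖y‖ * (‖y‖ ^ 2 + ‖t - 1 / 4‖) := by ring
  · have hd : ∀ w ∈ Metric.closedBall (0 : ℂ) ‖y‖, HasDerivWithinAt
        (fun y => gamt y t) (-(2 * Real.pi * Complex.sin (2 * Real.pi * w) /
      (Complex.cos (2 * Real.pi * w) - Complex.sin (2 * Real.pi * (t - 1 / 4)))))
        (Metric.closedBall (0 : ℂ) ‖y‖) w := by
      intro w hw
      have hw' := hball w hw
      exact (gamt_deriv_y (y := w) (t := t) (by linarith) (by linarith)).hasDerivWithinAt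
    have hb : ∀ w ∈ Metric.closedBall (0 : ℂ) ‖y‖,
        ‖-(2 * Real.pi * Complex.sin (2 * Real.pi * w) /
      (Complex.cos (2 * Real.pi * w) - Complex.sin (2 * Real.pi * (t - 1 / 4))))‖ ≤ 1000 * ‖y‖ := by
      intro w hw
      have hw' := hball w hw
      have n0 := norm_nonneg w
      have a1 := (small_data (r := 1 / 20) le_rfl (by linarith : ‖w‖ ≤ 1 / 20)).2
      have hden := den_low (y := w) (t := t) (by linarith) ht.le
      rw [norm_neg, norm_div, norm_mul, norm_mul, RCLike.norm_ofNat, Complex.norm_real,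
        Real.norm_eq_abs, abs_of_pos hp0]
      have b1 : ‖Complex.sin (2 * Real.pi * w)‖ ≤ 9 * ‖y‖ := a1.trans (by
        gcongr
        linarith)
      calc 2 * Real.pi * ‖Complex.sin (2 * Real.pi * w)‖ /
            ‖Complex.cos (2 * Real.pi * w) - Complex.sin (2 * Real.pi * (t - 1 / 4))‖ ≤
          2 * 3.15 * (9 * ‖y‖) / (2 / 5) := by gcongr
        _ = 141.75 * ‖y‖ := by ring
        _ ≤ 1000 * ‖y‖ := by
          gcongr
          norm_num
    have h := (convex_closedBall (0 : ℂ) ‖y‖).norm_image_sub_le_of_norm_hasDerivWithin_le hd hb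
      (Metric.mem_closedBall_self n2) (mem_closedBall_zero_iff.2 le_rfl)
    rw [sub_zero] at h
    calc _ ≤ _ := h
      _ = 1000 * ‖y‖ ^ 2 := by ring

end Pool.Agent.Helper9.TF
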