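import Mathlib
import Pool.Agent.Helper96.TF.Base
import Pool.Agent.Helper5.TB.Ladder

/-!
# The sum of the dilogarithms over one twist region
-/

set_option autoImplicit false

namespace Pool.Agent.Helper9.TF

open Complex Finset
open Pool.Agent.Helper5.TB (BW EE fan_step close_step BW_zero BW_inv BW_conj)

lemma BW_negexp_conj (u : ℂ) : BW (-Complex.exp (-(2 * Real.pi * I * (starRingEnd ℂ) u))) =
    BW (-Complex.exp (-(2 * Real.pi * I * u))) := by
  have e : -Complex.exp (-(2 * Real.pi * I * (starRingEnd ℂ) u)) =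
      (starRingEnd ℂ) (-Complex.exp (-(2 * Real.pi * I * u)))⁻¹ := by
    rw [map_inv₀, map_neg, ← Complex.exp_conj, inv_neg, ← Complex.exp_neg, neg_inj]
    congr 1
    simp only [map_mul, map_neg, Complex.conj_ofReal, Complex.conj_I, Complex.conj_ofNat]
    ring
  rw [e, BW_conj, BW_inv, neg_neg]

lemma BW_exp_conj (u : ℂ) : BW (Complex.exp (2 * Real.pi * I * (starRingEnd ℂ) u)) =
    BW (Complex.exp (2 * Real.pi * I * u)) := by
  have e : Complex.exp (2 * Real.pi * I * (starRingEnd ℂ) u) =
      (starRingEnd ℂ) (Complex.exp (2 * Real.pi * I * u))⁻¹ := by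
    rw [map_inv₀, ← Complex.exp_conj, ← Complex.exp_neg]
    congr 1
    simp only [map_mul, Complex.conj_ofReal, Complex.conj_I, Complex.conj_ofNat]
    ring
  rw [e, BW_conj, BW_inv, neg_neg]

lemma GG_conj (y t : ℂ) : GG ((starRingEnd ℂ) y) ((starRingEnd ℂ) t) = GG y t := by
  unfold GG
  rw [← map_add, ← map_sub, BW_negexp_conj, BW_negexp_conj, BW_exp_conj]

lemma GG_cj (r : ℕ) (y t : ℂ) : GG (cj r y) (cj r t) = GG y t := by
  by_cases h : Even r
  · rw [cj_even h, cj_even h]
  · rw [cj_odd h, cj_odd h, GG_conj]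

lemma sin_mul_two_I (z : ℂ) : Complex.exp (I * z) - Complex.exp (-(I * z)) =
    2 * I * Complex.sin z := by
  rw [Complex.sin, neg_mul, mul_comm z I]
  linear_combination (Complex.exp (I * z) - Complex.exp (-(I * z))) * Complex.I_sq

lemma cos_mul_two (z : ℂ) : Complex.exp (I * z) + Complex.exp (-(I * z)) =
    2 * Complex.cos z := by
  rw [Complex.cos, neg_mul, mul_comm z I]
  ring

/-- the phases next to a hinge -/
lemma sin_hinge {y t : ℂ} (hy : ‖y‖ < 1 / 200) (ht : ‖t - 1 / 4‖ ≤ 1 / 200)
    (hs : Complex.sin (Real.pi * y) ≠ 0) :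
    Complex.sin (ps y t) ≠ 0 ∧ Complex.sin (ps y t + Real.pi * y) ≠ 0 ∧
    Complex.sin (ps y t - Real.pi * y) =
      -Complex.exp (-(2 * Real.pi * I * t)) * Complex.sin (ps y t + Real.pi * y) := by
  obtain ⟨hE, hc1, hc2⟩ := exp_ps hy ht
  have hcy : Complex.cos (Real.pi * y) ≠ 0 := by
    have hHS : y ∈ HS := by
      show |y.re| < 1 / 2
      exact (Complex.abs_re_le_norm y).trans_lt (hy.trans (by norm_num))
    have h := cos_re_pos hHS
    intro h0
    rw [h0, mul_zero, Complex.zero_re] at h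
    exact lt_irrefl _ h
  have hst : Complex.sin (Real.pi * t) ≠ 0 := by
    have h := cos_re_pos (HS_half ht)
    have e : Complex.cos (Real.pi * (t - 1 / 2)) = Complex.sin (Real.pi * t) := by
      rw [show (Real.pi : ℂ) * (t - 1 / 2) = Real.pi * t - Real.pi / 2 by ring,
        Complex.cos_sub_pi_div_two]
    intro h0
    rw [e, h0, mul_zero, Complex.zero_re] at h
    exact lt_irrefl _ h
  set θ : ℂ := Real.pi * y with hθ
  set τ : ℂ := Real.pi * t with hτ
  set p : ℂ := ps y t with hp
  have e1 : (Real.pi : ℂ) * (t + y) = τ + θ := by rw [hτ, hθ]; ring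
  have e2 : (Real.pi : ℂ) * (t - y) = τ - θ := by rw [hτ, hθ]; ring
  rw [e1, e2] at hE
  rw [e1] at hc1
  rw [e2] at hc2
  have hE2 : Complex.exp (2 * I * p) * Complex.cos (τ - θ) = Complex.cos (τ + θ) := by
    rw [hE, div_mul_cancel₀ _ hc2]
  -- exponentials
  obtain ⟨X, hX⟩ : ∃ X, X = Complex.exp (I * θ) := ⟨_, rfl⟩
  obtain ⟨Z, hZ⟩ : ∃ Z, Z = Complex.exp (-(I * θ)) := ⟨_, rfl⟩
  obtain ⟨T, hT⟩ : ∃ T, T = Complex.exp (I * τ) := ⟨_, rfl⟩
  obtain ⟨U, hU⟩ : ∃ U, U = Complex.exp (-(I * τ)) := ⟨_, rfl⟩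
  obtain ⟨P, hP⟩ : ∃ P, P = Complex.exp (I * p) := ⟨_, rfl⟩
  obtain ⟨Q, hQ⟩ : ∃ Q, Q = Complex.exp (-(I * p)) := ⟨_, rfl⟩
  have hXZ : X * Z = 1 := by rw [hX, hZ, ← Complex.exp_add, add_neg_cancel, Complex.exp_zero]
  have hTU : T * U = 1 := by rw [hT, hU, ← Complex.exp_add, add_neg_cancel, Complex.exp_zero]
  have hPQ : P * Q = 1 := by rw [hP, hQ, ← Complex.exp_add, add_neg_cancel, Complex.exp_zero]
  have hP0 : P ≠ 0 := by rw [hP]; exact Complex.exp_ne_zero _
  have hT0 : T ≠ 0 := by rw [hT]; exact Complex.exp_ne_zero _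
  have cp : 2 * Complex.cos (τ + θ) = T * X + U * Z := by
    rw [← cos_mul_two, hT, hU, hX, hZ, ← Complex.exp_add, ← Complex.exp_add]
    congr 2 <;> ring
  have cm : 2 * Complex.cos (τ - θ) = T * Z + U * X := by
    rw [← cos_mul_two, hT, hU, hX, hZ, ← Complex.exp_add, ← Complex.exp_add]
    congr 2 <;> ring
  have sp : 2 * I * Complex.sin (p + θ) = P * X - Q * Z := by
    rw [← sin_mul_two_I, hP, hQ, hX, hZ, ← Complex.exp_add, ← Complex.exp_add]
    congr 2 <;> ring
  have sm : 2 * I * Complex.sin (p - θ) = P * Z - Q * X := by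
    rw [← sin_mul_two_I, hP, hQ, hX, hZ, ← Complex.exp_add, ← Complex.exp_add]
    congr 2 <;> ring
  have s0 : 2 * I * Complex.sin p = P - Q := by rw [← sin_mul_two_I, hP, hQ]
  have sθ : 2 * I * Complex.sin θ = X - Z := by rw [← sin_mul_two_I, hX, hZ]
  have cθ : 2 * Complex.cos θ = X + Z := by rw [← cos_mul_two, hX, hZ]
  have sτ : 2 * I * Complex.sin τ = T - U := by rw [← sin_mul_two_I, hT, hU]
  have hPP : P ^ 2 * (T * Z + U * X) = T * X + U * Z := by
    rw [← cm, ← cp]
    have : P ^ 2 = Complex.exp (2 * I * p) := by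
      rw [hP, ← Complex.exp_nat_mul]; congr 1; push_cast; ring
    rw [this]
    linear_combination 2 * hE2
  have hD : T * Z + U * X ≠ 0 := by rw [← cm]; exact mul_ne_zero two_ne_zero hc2
  have hI : (2 * I : ℂ) ≠ 0 := mul_ne_zero two_ne_zero Complex.I_ne_zero
  have hXZm : X - Z ≠ 0 := by rw [← sθ]; exact mul_ne_zero hI hs
  have hXZp : X + Z ≠ 0 := by rw [← cθ]; exact mul_ne_zero two_ne_zero hcy
  have hTUm : T - U ≠ 0 := by rw [← sτ]; exact mul_ne_zero hI hst
  have eU : Complex.exp (-(2 * Real.pi * I * t)) = U ^ 2 := by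
    rw [hU, ← Complex.exp_nat_mul]; congr 1; rw [hτ]; push_cast; ring
  refine ⟨?_, ?_, ?_⟩
  · intro h0
    rw [h0, mul_zero] at s0
    have hq : Q = P := by linear_combination s0
    rw [hq] at hPQ
    -- P ^ 2 = 1
    have : (X - Z) * (T - U) = 0 := by
      have h2 : P ^ 2 = 1 := by rw [sq]; exact hPQ
      rw [h2] at hPP
      linear_combination -hPP
    rcases mul_eq_zero.1 this with h | h
    · exact hXZm h
    · exact hTUm h
  · intro h0
    rw [h0, mul_zero] at sp
    -- P^2 X = Z
    have h2 : P ^ 2 * X = Z := by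
      linear_combination -P * sp + Z * hPQ
    have h3 : T * ((X - Z) * (X + Z)) = 0 := by
      linear_combination (-X) * hPP + (T * Z + U * X) * h2
    rcases mul_eq_zero.1 h3 with h | h
    · exact hT0 h
    · rcases mul_eq_zero.1 h with h | h
      · exact hXZm h
      · exact hXZp h
  · apply mul_left_cancel₀ hI
    rw [sm, eU]
    have : 2 * I * (-U ^ 2 * Complex.sin (p + θ)) = -U ^ 2 * (P * X - Q * Z) := by
      rw [← sp]; ring
    rw [this]
    apply mul_left_cancel₀ hP0
    apply mul_left_cancel₀ hD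
    have k1 : P * (P * Z - Q * X) = P ^ 2 * Z - X := by linear_combination (-X) * hPQ
    have k2 : P * (-U ^ 2 * (P * X - Q * Z)) = -U ^ 2 * (P ^ 2 * X - Z) := by
      linear_combination (U ^ 2 * Z) * hPQ
    rw [k1, k2]
    linear_combination (Z + U ^ 2 * X) * hPP + (U * X ^ 2 - U * Z ^ 2) * hTU

lemma neg_exp_split (u v : ℂ) : (Complex.exp (-(I * (Real.pi * v)))) ^ 2 *
    -Complex.exp (-(2 * Real.pi * I * u)) = -Complex.exp (-(2 * Real.pi * I * (u + v))) := by
  rw [← Complex.exp_nat_mul, mul_neg, ← Complex.exp_add]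
  congr 2
  push_cast
  ring

lemma one_add_exp_ne {u : ℂ} (h : Complex.cos (Real.pi * u) ≠ 0) :
    1 + Complex.exp (-(2 * Real.pi * I * u)) ≠ 0 := by
  intro h0
  apply h
  have h1 := cos_mul_two (Real.pi * u)
  have h2 : Complex.exp (I * (Real.pi * u)) + Complex.exp (-(I * (Real.pi * u))) =
      Complex.exp (I * (Real.pi * u)) * (1 + Complex.exp (-(2 * Real.pi * I * u))) := by
    rw [mul_add, mul_one, ← Complex.exp_add]
    congr 2
    ring
  rw [h2, h0, mul_zero] at h1
  exact (mul_eq_zero.1 h1.symm).resolve_left two_ne_zero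

/-- the two ends of the ladder at a hinge -/
lemma close_left {y t : ℂ} (hy : ‖y‖ < 1 / 200) (ht : ‖t - 1 / 4‖ ≤ 1 / 200)
    (hs : Complex.sin (Real.pi * y) ≠ 0) :
    EE (Complex.exp (-(I * (Real.pi * y)))) (Complex.sin (ps y t - Real.pi * y))
        (Complex.sin (ps y t)) +
      EE (Complex.exp (-(I * (Real.pi * y)))) (Complex.sin (ps y t))
        (Complex.sin (ps y t + Real.pi * y)) = GG y t := by
  obtain ⟨hb, hc, hr⟩ := sin_hinge hy ht hs
  obtain ⟨-, hc1, hc2⟩ := exp_ps hy ht
  set l := Complex.exp (-(I * (Real.pi * y))) with hl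
  have hl0 : l ≠ 0 := Complex.exp_ne_zero _
  have hli : l⁻¹ = Complex.exp (I * (Real.pi * y)) := by rw [hl, ← Complex.exp_neg, neg_neg]
  have hll : l + l⁻¹ = 2 * Complex.cos (Real.pi * y) := by
    rw [hli, hl, ← cos_mul_two]; ring
  have hcy : Complex.cos (Real.pi * y) ≠ 0 := by
    have hHS : y ∈ HS := by
      show |y.re| < 1 / 2
      exact (Complex.abs_re_le_norm y).trans_lt (hy.trans (by norm_num))
    have h := cos_re_pos hHS
    intro h0
    rw [h0, mul_zero, Complex.zero_re] at h
    exact lt_irrefl _ h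
  have hq : Complex.sin (ps y t - Real.pi * y) / Complex.sin (ps y t + Real.pi * y) =
      -Complex.exp (-(2 * Real.pi * I * t)) := by
    rw [hr, mul_div_assoc, div_self hc, mul_one]
  have q1 : l ^ 2 * Complex.sin (ps y t - Real.pi * y) / Complex.sin (ps y t + Real.pi * y) =
      -Complex.exp (-(2 * Real.pi * I * (t + y))) := by
    rw [mul_div_assoc, hq, hl, neg_exp_split]
  have q2 : (l ^ 2)⁻¹ * Complex.sin (ps y t - Real.pi * y) / Complex.sin (ps y t + Real.pi * y) =
      -Complex.exp (-(2 * Real.pi * I * (t - y))) := by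
    have : (l ^ 2)⁻¹ = (Complex.exp (-(I * (Real.pi * (-y))))) ^ 2 := by
      rw [← inv_pow, hli]; congr 2; ring
    rw [mul_div_assoc, hq, this, neg_exp_split, sub_eq_add_neg]
  have hadd : Complex.sin (ps y t + Real.pi * y) + Complex.sin (ps y t - Real.pi * y) =
      (l + l⁻¹) * Complex.sin (ps y t) := by
    rw [hll, Complex.sin_add, Complex.sin_sub]; ring
  have h := close_step (l := l) (a := Complex.sin (ps y t - Real.pi * y))
    (b := Complex.sin (ps y t)) (c := Complex.sin (ps y t + Real.pi * y)) hl0 hb hc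
    (by rw [hll]; exact mul_ne_zero two_ne_zero hcy) hadd
    (by rw [q1, sub_neg_eq_add]; exact one_add_exp_ne hc1)
    (by rw [q2, sub_neg_eq_add]; exact one_add_exp_ne hc2)
  rw [h, q1, q2, hq, neg_neg]
  have h5 : BW (Complex.exp (-(2 * Real.pi * I * t))) = -BW (Complex.exp (2 * Real.pi * I * t)) := by
    rw [Complex.exp_neg, BW_inv]
  rw [h5]
  unfold GG
  ring

lemma close_right {y t : ℂ} (hy : ‖y‖ < 1 / 200) (ht : ‖t - 1 / 4‖ ≤ 1 / 200)
    (hs : Complex.sin (Real.pi * y) ≠ 0) :
    EE (Complex.exp (-(I * (Real.pi * y)))) (Complex.sin (ps y t + Real.pi * y))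
        (Complex.sin (ps y t)) +
      EE (Complex.exp (-(I * (Real.pi * y)))) (Complex.sin (ps y t))
        (Complex.sin (ps y t - Real.pi * y)) = -GG y t := by
  rw [← close_left hy ht hs]
  unfold EE
  set l := Complex.exp (-(I * (Real.pi * y))) with hl
  have k (m u v : ℂ) : BW (m * u / v) = -BW (m⁻¹ * v / u) := by
    rw [← BW_inv, ← inv_inv (m * u / v)]
    congr 2
    rw [inv_div, mul_comm m u, ← div_div, div_eq_mul_inv, mul_comm]
    ring
  have k1 := k l (Complex.sin (ps y t + Real.pi * y)) (Complex.sin (ps y t))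
  have k2 := k l⁻¹ (Complex.sin (ps y t + Real.pi * y)) (Complex.sin (ps y t))
  have k3 := k l (Complex.sin (ps y t)) (Complex.sin (ps y t - Real.pi * y))
  have k4 := k l⁻¹ (Complex.sin (ps y t)) (Complex.sin (ps y t - Real.pi * y))
  rw [inv_inv] at k2 k4
  linarith

theorem US_sum {n : ℕ} {a : ℕ → ℕ} {y t : ℕ → ℂ} (hn : 2 ≤ n) (ha : ∀ i, i < n → 1000 ≤ a i)
    (H : Crit n a y t) {r : ℕ} (hr : r < n) (hne : ∀ k, 1 ≤ k → k < a r → US y t r k ≠ 0) :
    2 * ∑ k ∈ Ico 1 (a r), BW (US y t r k) + (if r = 0 then 0 else BW (US y t r 0)) +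
        (if r + 1 = n then 0 else BW (US y t r (a r))) =
      (if r = 0 then 0 else GG (y r) (t (r - 1))) + (if r + 1 = n then 0 else GG (y r) (t r)) := by
  have har := ha r hr
  have hη := cj_small ha H hr r
  set η := cj r (y r) with hηd
  set s := Complex.sin (Real.pi * η) with hsd
  set l := Complex.exp (-(I * (Real.pi * η))) with hl
  obtain ⟨b, hb⟩ : ∃ b : ℕ → ℂ, b = fun k => Complex.sin (ph y t r k) := ⟨_, rfl⟩
  have hUS : ∀ k, US y t r k = (b k / s) ^ 2 := fun k => by rw [hb]; rfl
  have hl0 : l ≠ 0 := Complex.exp_ne_zero _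
  have hll : l + l⁻¹ = 2 * Complex.cos (Real.pi * η) := by
    rw [hl, ← Complex.exp_neg, neg_neg, ← cos_mul_two]; ring
  have hs : s ≠ 0 := by
    intro h0
    apply hne 1 le_rfl (by omega)
    rw [hUS, h0, div_zero, zero_pow two_ne_zero]
  have hbk : ∀ k, 1 ≤ k → k < a r → b k ≠ 0 := by
    intro k h1 h2 h0
    apply hne k h1 h2
    rw [hUS, h0, zero_div, zero_pow two_ne_zero]
  -- general step
  have step : ∀ φ : ℂ, Complex.sin φ ≠ 0 → BW ((Complex.sin φ / s) ^ 2) =
      EE l (Complex.sin (φ - Real.pi * η)) (Complex.sin φ) -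
        EE l (Complex.sin φ) (Complex.sin (φ + Real.pi * η)) := by
    intro φ hφ
    apply fan_step hl0 hφ hs
    · rw [hll, Complex.sin_add, Complex.sin_sub]; ring
    · rw [Complex.sin_add, Complex.sin_sub, hsd]
      have h1 := Complex.sin_sq_add_cos_sq φ
      have h2 := Complex.sin_sq_add_cos_sq (Real.pi * η)
      linear_combination (Complex.sin φ ^ 2) * h2 - (Complex.sin (Real.pi * η)) ^ 2 * h1
  have hph : ∀ k : ℕ, ph y t r (k + 1) = ph y t r k + Real.pi * η := by
    intro k
    unfold ph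
    rw [← hηd]
    push_cast
    ring
  have hsum : ∀ m, 1 ≤ m → m ≤ a r → ∑ k ∈ Ico 1 m, BW (US y t r k) =
      EE l (b 0) (b 1) - EE l (b (m - 1)) (b m) := by
    intro m hm
    induction m, hm using Nat.le_induction with
    | base => intro _; simp
    | succ m hm ih =>
      intro hma
      rw [Finset.sum_Ico_succ_top hm, ih (by omega), hUS]
      obtain ⟨q, rfl⟩ : ∃ q, m = q + 1 := ⟨m - 1, by omega⟩
      have h1 := step (ph y t r (q + 1)) (by have := hbk (q + 1) hm (by omega); rwa [hb] at this)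
      have h2 : Complex.sin (ph y t r (q + 1) - Real.pi * η) = b q := by
        rw [hph, add_sub_cancel_right, hb]
      have h3 : Complex.sin (ph y t r (q + 1) + Real.pi * η) = b (q + 1 + 1) := by
        rw [← hph, hb]
      have h4 : Complex.sin (ph y t r (q + 1)) = b (q + 1) := by rw [hb]
      rw [h2, h3, h4] at h1
      rw [h1]
      simp only [Nat.add_sub_cancel]
      ring
  rw [hsum (a r) (by omega) le_rfl]
  -- the left end
  have hleft : 2 * EE l (b 0) (b 1) + (if r = 0 then 0 else BW (US y t r 0)) =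
      (if r = 0 then 0 else GG (y r) (t (r - 1))) := by
    by_cases h0 : r = 0
    · rw [if_pos h0, if_pos h0]
      have : b 0 = 0 := by
        rw [hb]
        show Complex.sin (ph y t r 0) = 0
        unfold ph
        rw [if_pos h0]
        simp
      rw [this]
      unfold EE
      simp [BW_zero]
    · rw [if_neg h0, if_neg h0]
      have hτ := cj_near_t H (j := r - 1) (by omega) r
      have e0 : ph y t r 0 = ps η (cj r (t (r - 1))) := by
        unfold ph
        rw [if_neg h0, ← hηd]
        simp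
      have e1 : b 0 = Complex.sin (ps η (cj r (t (r - 1)))) := by rw [hb, ← e0]
      have e2 : b 1 = Complex.sin (ps η (cj r (t (r - 1))) + Real.pi * η) := by
        rw [hb]
        show Complex.sin (ph y t r (0 + 1)) = _
        rw [hph, e0]
      have h1 := close_left hη hτ hs
      have h2 := step (ps η (cj r (t (r - 1)))) (sin_hinge hη hτ hs).1
      rw [hUS, e1, e2, h2, ← GG_cj r (y r), ← hηd, ← h1]
      ring
  have hright : -2 * EE l (b (a r - 1)) (b (a r)) +
      (if r + 1 = n then 0 else BW (US y t r (a r))) =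
      (if r + 1 = n then 0 else GG (y r) (t r)) := by
    have hend := ph_end ha H hr
    rw [← hηd] at hend
    have hprev : ph y t r (a r - 1 : ℕ) = ph y t r (a r) - Real.pi * η := by
      have := hph (a r - 1)
      rw [Nat.sub_add_cancel (by omega)] at this
      rw [this]; ring
    by_cases h0 : r + 1 = n
    · rw [if_pos h0, if_pos h0]
      rw [if_pos h0] at hend
      have : b (a r) = 0 := by
        rw [hb]
        show Complex.sin (ph y t r (a r)) = 0
        rw [hend, sub_zero, Complex.sin_pi]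
      rw [this]
      unfold EE
      simp [BW_zero]
    · rw [if_neg h0, if_neg h0]
      rw [if_neg h0] at hend
      have hτ := cj_near_t H (j := r) (by omega) r
      have e1 : b (a r) = Complex.sin (ps η (cj r (t r))) := by
        rw [hb]
        show Complex.sin (ph y t r (a r)) = _
        rw [hend, Complex.sin_pi_sub]
      have e2 : b (a r - 1) = Complex.sin (ps η (cj r (t r)) + Real.pi * η) := by
        rw [hb]
        show Complex.sin (ph y t r (a r - 1 : ℕ)) = _
        rw [hprev, hend, ← Complex.sin_pi_sub]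
        congr 1
        ring
      have h1 := close_right hη hτ hs
      have h2 := step (ph y t r (a r)) (by
        have h3 := (sin_hinge hη hτ hs).1
        rw [← e1, hb] at h3
        exact h3)
      have e3 : Complex.sin (ph y t r (a r)) = Complex.sin (ps η (cj r (t r))) := by
        rw [hend, Complex.sin_pi_sub]
      have e4 : Complex.sin (ph y t r (a r) - Real.pi * η) =
          Complex.sin (ps η (cj r (t r)) + Real.pi * η) := by
        rw [hend, ← Complex.sin_pi_sub]
        congr 1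
        ring
      have e5 : Complex.sin (ph y t r (a r) + Real.pi * η) =
          Complex.sin (ps η (cj r (t r)) - Real.pi * η) := by
        rw [hend, ← Complex.sin_pi_sub]
        congr 1
        ring
      rw [e3, e4, e5] at h2
      rw [hUS, e1, e2, h2, ← GG_cj r (y r), ← hηd]
      linear_combination -h1
  linear_combination hleft + hright

end Pool.Agent.Helper9.TF
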